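import Mathlib

/-!
# Approximation of `x_+ ^ p` by polynomials with non-negative derivatives of order 2, 3, 4
-/

open Polynomial

namespace Pool.Agent.Lib_helper30.TN

/-- `x_+ ^ s` -/
noncomputable def mp (s x : ℝ) : ℝ := (max x 0) ^ s

theorem mp_nonneg (s x : ℝ) : 0 ≤ mp s x := Real.rpow_nonneg (le_max_right _ _) _

theorem mp_of_nonpos {s x : ℝ} (hs : 0 < s) (hx : x ≤ 0) : mp s x = 0 := by
  rw [mp, max_eq_right hx, Real.zero_rpow hs.ne']

theorem hasDerivAt_mp {s : ℝ} (hs : 1 < s) (x : ℝ) :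
    HasDerivAt (mp s) (s * mp (s - 1) x) x := by
  rcases lt_trichotomy x 0 with h | h | h
  · have e : mp s =ᶠ[nhds x] fun _ => 0 := by
      filter_upwards [Iio_mem_nhds h] with y hy
      exact mp_of_nonpos (by linarith) (le_of_lt hy)
    rw [mp_of_nonpos (by linarith) h.le, mul_zero]
    exact (hasDerivAt_const x 0).congr_of_eventuallyEq e
  · subst h
    rw [mp_of_nonpos (by linarith) le_rfl, mul_zero, hasDerivAt_iff_isLittleO_nhds_zero]
    rw [mp_of_nonpos (by linarith) le_rfl]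
    simp only [zero_add, sub_zero, smul_eq_mul, mul_zero]
    rw [Asymptotics.isLittleO_iff]
    intro c hc
    have ht : Filter.Tendsto (fun y : ℝ => |y| ^ (s - 1)) (nhds 0) (nhds 0) := by
      have h1 : Filter.Tendsto (fun y : ℝ => |y| ^ (s - 1)) (nhds 0) (nhds (|0| ^ (s - 1))) := by
        apply Continuous.tendsto
        exact continuous_abs.rpow_const (fun _ => Or.inr (by linarith))
      rwa [abs_zero, Real.zero_rpow (by linarith : s - 1 ≠ 0)] at h1
    filter_upwards [ht (Iio_mem_nhds hc)] with y hy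
    rw [Real.norm_eq_abs, Real.norm_eq_abs, abs_of_nonneg (mp_nonneg s y)]
    have h2 : mp s y ≤ |y| ^ s := by
      rw [mp]
      apply Real.rpow_le_rpow (le_max_right _ _) _ (by linarith)
      exact max_le (le_abs_self y) (abs_nonneg y)
    have h3 : |y| ^ s = |y| ^ (s - 1) * |y| := by
      rcases eq_or_ne y 0 with h | h
      · rw [h, abs_zero, Real.zero_rpow (by linarith), mul_zero]
      · rw [← Real.rpow_add_one (abs_pos.2 h).ne']
        congr 1
        ring
    have h4 : |y| ^ (s - 1) * |y| ≤ c * |y| :=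
      mul_le_mul_of_nonneg_right (le_of_lt hy) (abs_nonneg y)
    linarith
  · have e : mp s =ᶠ[nhds x] fun y => y ^ s := by
      filter_upwards [Ioi_mem_nhds h] with y hy
      rw [mp, max_eq_left (le_of_lt hy)]
    have h1 := Real.hasDerivAt_rpow_const (p := s) (Or.inl h.ne')
    have e2 : mp (s - 1) x = x ^ (s - 1) := by rw [mp, max_eq_left h.le]
    rw [e2]
    exact h1.congr_of_eventuallyEq e

theorem exists_antideriv (q : ℝ[X]) (a : ℝ) : ∃ F : ℝ[X], derivative F = q ∧ F.eval a = 0 := by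
  have h : ∃ F : ℝ[X], derivative F = q := by
    induction q using Polynomial.induction_on' with
    | add p q hp hq =>
      obtain ⟨F, hF⟩ := hp
      obtain ⟨G, hG⟩ := hq
      exact ⟨F + G, by rw [derivative_add, hF, hG]⟩
    | monomial n c =>
      refine ⟨monomial (n + 1) (c / ((n : ℝ) + 1)), ?_⟩
      rw [derivative_monomial]
      have : (n : ℝ) + 1 ≠ 0 := by positivity
      congr 1
      push_cast
      field_simp
  obtain ⟨F, hF⟩ := h
  refine ⟨F - C (F.eval a), ?_, ?_⟩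
  · rw [derivative_sub, derivative_C, sub_zero, hF]
  · simp

theorem cmpR {a b a' b' : ℝ → ℝ} {l r : ℝ} (ha : ∀ t, HasDerivAt a (a' t) t)
    (hb : ∀ t, HasDerivAt b (b' t) t) (h0 : a l ≤ b l) (h : ∀ s ∈ Set.Icc l r, a' s ≤ b' s) :
    ∀ z ∈ Set.Icc l r, a z ≤ b z := by
  intro z hz
  have hd : ∀ t, HasDerivAt (fun t => b t - a t) (b' t - a' t) t := fun t => (hb t).sub (ha t)
  have hm : MonotoneOn (fun t => b t - a t) (Set.Icc l r) := by
    apply monotoneOn_of_deriv_nonneg (convex_Icc l r)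
    · intro t _
      exact (hd t).continuousAt.continuousWithinAt
    · intro t _
      exact (hd t).differentiableAt.differentiableWithinAt
    · intro t ht
      rw [(hd t).deriv]
      rw [interior_Icc] at ht
      exact sub_nonneg.2 (h t ⟨ht.1.le, ht.2.le⟩)
  have h1 := hm ⟨le_rfl, hz.1.trans hz.2⟩ hz hz.1
  simp only at h1
  linarith

/-- BLOCK AP -/
theorem approx {p : ℝ} (hp : 4 < p) {R : ℝ} (hR : 0 < R) : ∃ M4 : ℝ, 0 ≤ M4 ∧
    ∀ e : ℝ, 0 < e → e ≤ 1 → ∃ f : ℝ[X], ∀ x, |x| ≤ R →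
      0 ≤ (derivative (derivative f)).eval x ∧
      0 ≤ (derivative (derivative (derivative f))).eval x ∧
      0 ≤ (derivative (derivative (derivative (derivative f)))).eval x ∧
      (derivative (derivative (derivative (derivative f)))).eval x ≤ M4 ∧
      |f.eval x - mp p x| ≤ e ∧ |(derivative f).eval x - p * mp (p - 1) x| ≤ e := by
  have hc4 : 0 < p * (p - 1) * (p - 2) * (p - 3) := by
    have h1 : 0 < p := by linarith
    have h2 : 0 < p - 1 := by linarith
    have h3 : 0 < p - 2 := by linarith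
    have h4 : 0 < p - 3 := by linarith
    positivity
  have hRp : 0 ≤ R ^ (p - 4) := Real.rpow_nonneg hR.le _
  refine ⟨p * (p - 1) * (p - 2) * (p - 3) * R ^ (p - 4) + 2, by positivity, ?_⟩
  intro e he he1
  set T : ℝ := 1 + (2 * R) ^ 3 + (2 * R) ^ 4 with hT
  have hT1 : 1 ≤ T := by
    have : 0 ≤ (2 * R) ^ 3 := by positivity
    have : 0 ≤ (2 * R) ^ 4 := by positivity
    linarith
  set δ : ℝ := e / T with hδ
  have hδ0 : 0 < δ := by positivity
  have hδ1 : δ ≤ 1 := by
    rw [hδ, div_le_one (by linarith)]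
    linarith
  have hcont : Continuous fun x => p * (p - 1) * (p - 2) * (p - 3) * mp (p - 4) x + δ := by
    have : Continuous (mp (p - 4)) :=
      (continuous_id.max continuous_const).rpow_const (fun _ => Or.inr (by linarith))
    fun_prop
  obtain ⟨q, hq⟩ := exists_polynomial_near_of_continuousOn (-R) R _ hcont.continuousOn δ hδ0
  obtain ⟨f3, hf3, z3⟩ := exists_antideriv q (-R)
  obtain ⟨f2, hf2, z2⟩ := exists_antideriv f3 (-R)
  obtain ⟨f1, hf1, z1⟩ := exists_antideriv f2 (-R)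
  obtain ⟨f, hf, z0⟩ := exists_antideriv f1 (-R)
  have d3 : ∀ t, HasDerivAt (fun x => f3.eval x) (q.eval t) t := fun t => hf3 ▸ f3.hasDerivAt t
  have d2 : ∀ t, HasDerivAt (fun x => f2.eval x) (f3.eval t) t := fun t => hf2 ▸ f2.hasDerivAt t
  have d1 : ∀ t, HasDerivAt (fun x => f1.eval x) (f2.eval t) t := fun t => hf1 ▸ f1.hasDerivAt t
  have d0 : ∀ t, HasDerivAt (fun x => f.eval x) (f1.eval t) t := fun t => hf ▸ f.hasDerivAt t
  have pd : ∀ (c : ℝ) (k : ℕ) (t : ℝ), HasDerivAt (fun x : ℝ => c * (x + R) ^ (k + 1))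
      (c * ((k : ℝ) + 1) * (t + R) ^ k) t := by
    intro c k t
    have h1 := (((hasDerivAt_id t).add_const R).pow (k + 1)).const_mul c
    refine h1.congr_deriv ?_
    simp
    ring
  have g3 : ∀ t, HasDerivAt (fun x => p * (p - 1) * (p - 2) * mp (p - 3) x)
      (p * (p - 1) * (p - 2) * (p - 3) * mp (p - 4) t) t := by
    intro t
    have h1 := (hasDerivAt_mp (s := p - 3) (by linarith) t).const_mul (p * (p - 1) * (p - 2))
    refine h1.congr_deriv ?_
    have : p - 3 - 1 = p - 4 := by ring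
    rw [this]
    ring
  have g2 : ∀ t, HasDerivAt (fun x => p * (p - 1) * mp (p - 2) x)
      (p * (p - 1) * (p - 2) * mp (p - 3) t) t := by
    intro t
    have h1 := (hasDerivAt_mp (s := p - 2) (by linarith) t).const_mul (p * (p - 1))
    refine h1.congr_deriv ?_
    have : p - 2 - 1 = p - 3 := by ring
    rw [this]
    ring
  have g1 : ∀ t, HasDerivAt (fun x => p * mp (p - 1) x) (p * (p - 1) * mp (p - 2) t) t := by
    intro t
    have h1 := (hasDerivAt_mp (s := p - 1) (by linarith) t).const_mul p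
    refine h1.congr_deriv ?_
    have : p - 1 - 1 = p - 2 := by ring
    rw [this]
    ring
  have g0 : ∀ t, HasDerivAt (fun x => mp p x) (p * mp (p - 1) t) t := fun t =>
    hasDerivAt_mp (by linarith) t
  have hz : ∀ s : ℝ, 0 < s → mp s (-R) = 0 := fun s hs => mp_of_nonpos hs (by linarith)
  -- lower bounds
  have l3 : ∀ x ∈ Set.Icc (-R) R, p * (p - 1) * (p - 2) * mp (p - 3) x ≤ f3.eval x :=
    cmpR g3 d3 (by rw [z3, hz _ (by linarith), mul_zero])
      (fun s hs => by have := abs_lt.1 (hq s hs); linarith)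
  have l2 : ∀ x ∈ Set.Icc (-R) R, p * (p - 1) * mp (p - 2) x ≤ f2.eval x :=
    cmpR g2 d2 (by rw [z2, hz _ (by linarith), mul_zero]) l3
  have l1 : ∀ x ∈ Set.Icc (-R) R, p * mp (p - 1) x ≤ f1.eval x :=
    cmpR g1 d1 (by rw [z1, hz _ (by linarith), mul_zero]) l2
  have l0 : ∀ x ∈ Set.Icc (-R) R, mp p x ≤ f.eval x :=
    cmpR g0 d0 (by rw [z0, hz _ (by linarith)]) l1
  -- upper bounds
  have u3 : ∀ x ∈ Set.Icc (-R) R, f3.eval x ≤ p * (p - 1) * (p - 2) * mp (p - 3) x +
      2 * δ * (x + R) ^ (0 + 1) :=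
    cmpR d3 (fun t => (g3 t).add (pd (2 * δ) 0 t))
      (by rw [z3, hz _ (by linarith)]; simp)
      (fun s hs => by
        have := abs_lt.1 (hq s hs)
        simp only [Nat.cast_zero, pow_zero]
        linarith)
  have u2 : ∀ x ∈ Set.Icc (-R) R, f2.eval x ≤ p * (p - 1) * mp (p - 2) x +
      δ * (x + R) ^ (1 + 1) :=
    cmpR d2 (fun t => (g2 t).add (pd δ 1 t))
      (by rw [z2, hz _ (by linarith)]; simp)
      (fun s hs => by
        have := u3 s hs
        push_cast
        norm_num at this ⊢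
        linarith)
  have u1 : ∀ x ∈ Set.Icc (-R) R, f1.eval x ≤ p * mp (p - 1) x +
      (δ / 3) * (x + R) ^ (2 + 1) :=
    cmpR d1 (fun t => (g1 t).add (pd (δ / 3) 2 t))
      (by rw [z1, hz _ (by linarith)]; simp)
      (fun s hs => by
        have := u2 s hs
        push_cast
        norm_num at this ⊢
        linarith)
  have u0 : ∀ x ∈ Set.Icc (-R) R, f.eval x ≤ mp p x +
      (δ / 12) * (x + R) ^ (3 + 1) :=
    cmpR d0 (fun t => (g0 t).add (pd (δ / 12) 3 t))
      (by rw [z0, hz _ (by linarith)]; simp)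
      (fun s hs => by
        have := u1 s hs
        push_cast
        norm_num at this ⊢
        linarith)
  have hδT : δ * T = e := by
    rw [hδ]
    field_simp
  refine ⟨f, ?_⟩
  intro x hx
  have hx' : x ∈ Set.Icc (-R) R := abs_le.1 hx
  have hxR : x + R ≤ 2 * R := by linarith [hx'.2]
  have hxR0 : 0 ≤ x + R := by linarith [hx'.1]
  have q3 : (x + R) ^ 3 ≤ (2 * R) ^ 3 := pow_le_pow_left₀ hxR0 hxR 3
  have q4 : (x + R) ^ 4 ≤ (2 * R) ^ 4 := pow_le_pow_left₀ hxR0 hxR 4
  have r3 : δ * (x + R) ^ 3 ≤ e := by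
    have h1 : δ * (x + R) ^ 3 ≤ δ * (2 * R) ^ 3 := mul_le_mul_of_nonneg_left q3 hδ0.le
    have h2 : 0 ≤ δ * (2 * R) ^ 4 := by positivity
    rw [hT] at hδT
    nlinarith
  have r4 : δ * (x + R) ^ 4 ≤ e := by
    have h1 : δ * (x + R) ^ 4 ≤ δ * (2 * R) ^ 4 := mul_le_mul_of_nonneg_left q4 hδ0.le
    have h2 : 0 ≤ δ * (2 * R) ^ 3 := by positivity
    rw [hT] at hδT
    nlinarith
  have r3' : 0 ≤ δ * (x + R) ^ 3 := by positivity
  have r4' : 0 ≤ δ * (x + R) ^ 4 := by positivity
  have hmp : mp (p - 4) x ≤ R ^ (p - 4) := by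
    rw [mp]
    apply Real.rpow_le_rpow (le_max_right _ _) _ (by linarith)
    exact max_le hx'.2 hR.le
  have hq' := abs_lt.1 (hq x hx')
  rw [hf, hf1, hf2, hf3]
  refine ⟨?_, ?_, ?_, ?_, ?_, ?_⟩
  · have := l2 x hx'
    have h1 : 0 ≤ p * (p - 1) * mp (p - 2) x :=
      mul_nonneg (mul_nonneg (by linarith) (by linarith)) (mp_nonneg _ _)
    linarith
  · have := l3 x hx'
    have h1 : 0 ≤ p * (p - 1) * (p - 2) * mp (p - 3) x :=
      mul_nonneg (mul_nonneg (mul_nonneg (by linarith) (by linarith)) (by linarith))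
        (mp_nonneg _ _)
    linarith
  · have h1 : 0 ≤ p * (p - 1) * (p - 2) * (p - 3) * mp (p - 4) x :=
      mul_nonneg hc4.le (mp_nonneg _ _)
    linarith
  · have h1 : p * (p - 1) * (p - 2) * (p - 3) * mp (p - 4) x ≤
        p * (p - 1) * (p - 2) * (p - 3) * R ^ (p - 4) :=
      mul_le_mul_of_nonneg_left hmp hc4.le
    linarith
  · have h1 := l0 x hx'
    have h2 := u0 x hx'
    norm_num at h2
    rw [abs_le]
    constructor
    · linarith
    · linarith
  · have h1 := l1 x hx'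
    have h2 := u1 x hx'
    norm_num at h2
    rw [abs_le]
    constructor
    · linarith
    · linarith

end Pool.Agent.Lib_helper30.TN
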