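import Pool.Agent.Lib_helper30.TN.Two
import Pool.Agent.Lib_helper95.RC.Defs24

/-!
# Taylor inequalities of order four for `s ↦ G (A, s D)`, `p > 4`
-/

open Polynomial Matrix Pool.Agent.Lib_helper42.T56 Pool.Agent.RC
open scoped ComplexOrder MatrixOrder

namespace Pool.Agent.Lib_helper30.TN

variable {ι : Type} [Fintype ι] [DecidableEq ι]

/-- `approx` with the second derivative -/
theorem approx2 {p : ℝ} (hp : 4 < p) {R : ℝ} (hR : 0 < R) : ∃ M4 : ℝ, 0 ≤ M4 ∧
    ∀ e : ℝ, 0 < e → e ≤ 1 → ∃ f : ℝ[X], ∀ x, |x| ≤ R →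
      0 ≤ (derivative (derivative f)).eval x ∧
      0 ≤ (derivative (derivative (derivative f))).eval x ∧
      0 ≤ (derivative (derivative (derivative (derivative f)))).eval x ∧
      (derivative (derivative (derivative (derivative f)))).eval x ≤ M4 ∧
      |f.eval x - mp p x| ≤ e ∧ |(derivative f).eval x - p * mp (p - 1) x| ≤ e ∧
      |(derivative (derivative f)).eval x - p * (p - 1) * mp (p - 2) x| ≤ e := by
  have hc4 : 0 < p * (p - 1) * (p - 2) * (p - 3) := by
    have h1 : 0 < p := by linarith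
    have h2 : 0 < p - 1 := by linarith
    have h3 : 0 < p - 2 := by linarith
    have h4 : 0 < p - 3 := by linarith
    positivity
  have hRp : 0 ≤ R ^ (p - 4) := Real.rpow_nonneg hR.le _
  refine ⟨p * (p - 1) * (p - 2) * (p - 3) * R ^ (p - 4) + 2, by positivity, ?_⟩
  intro e he he1
  set T : ℝ := 1 + (2 * R) ^ 3 + (2 * R) ^ 4 with hT
  have hT1 : 1 ≤ T := by
    have : 0 ≤ (2 * R) ^ 3 := by positivity
    have : 0 ≤ (2 * R) ^ 4 := by positivity
    linarith
  set δ : ℝ := e / T with hδ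
  have hδ0 : 0 < δ := by positivity
  have hδ1 : δ ≤ 1 := by
    rw [hδ, div_le_one (by linarith)]
    linarith
  have hcont : Continuous fun x => p * (p - 1) * (p - 2) * (p - 3) * mp (p - 4) x + δ := by
    have : Continuous (mp (p - 4)) :=
      (continuous_id.max continuous_const).rpow_const (fun _ => Or.inr (by linarith))
    fun_prop
  obtain ⟨q, hq⟩ := exists_polynomial_near_of_continuousOn (-R) R _ hcont.continuousOn δ hδ0
  obtain ⟨f3, hf3, z3⟩ := exists_antideriv q (-R)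
  obtain ⟨f2, hf2, z2⟩ := exists_antideriv f3 (-R)
  obtain ⟨f1, hf1, z1⟩ := exists_antideriv f2 (-R)
  obtain ⟨f, hf, z0⟩ := exists_antideriv f1 (-R)
  have d3 : ∀ t, HasDerivAt (fun x => f3.eval x) (q.eval t) t := fun t => hf3 ▸ f3.hasDerivAt t
  have d2 : ∀ t, HasDerivAt (fun x => f2.eval x) (f3.eval t) t := fun t => hf2 ▸ f2.hasDerivAt t
  have d1 : ∀ t, HasDerivAt (fun x => f1.eval x) (f2.eval t) t := fun t => hf1 ▸ f1.hasDerivAt t
  have d0 : ∀ t, HasDerivAt (fun x => f.eval x) (f1.eval t) t := fun t => hf ▸ f.hasDerivAt t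
  have pd : ∀ (c : ℝ) (k : ℕ) (t : ℝ), HasDerivAt (fun x : ℝ => c * (x + R) ^ (k + 1))
      (c * ((k : ℝ) + 1) * (t + R) ^ k) t := by
    intro c k t
    have h1 := (((hasDerivAt_id t).add_const R).pow (k + 1)).const_mul c
    refine h1.congr_deriv ?_
    simp
    ring
  have g3 : ∀ t, HasDerivAt (fun x => p * (p - 1) * (p - 2) * mp (p - 3) x)
      (p * (p - 1) * (p - 2) * (p - 3) * mp (p - 4) t) t := by
    intro t
    have h1 := (hasDerivAt_mp (s := p - 3) (by linarith) t).const_mul (p * (p - 1) * (p - 2))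
    refine h1.congr_deriv ?_
    have : p - 3 - 1 = p - 4 := by ring
    rw [this]
    ring
  have g2 : ∀ t, HasDerivAt (fun x => p * (p - 1) * mp (p - 2) x)
      (p * (p - 1) * (p - 2) * mp (p - 3) t) t := by
    intro t
    have h1 := (hasDerivAt_mp (s := p - 2) (by linarith) t).const_mul (p * (p - 1))
    refine h1.congr_deriv ?_
    have : p - 2 - 1 = p - 3 := by ring
    rw [this]
    ring
  have g1 : ∀ t, HasDerivAt (fun x => p * mp (p - 1) x) (p * (p - 1) * mp (p - 2) t) t := by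
    intro t
    have h1 := (hasDerivAt_mp (s := p - 1) (by linarith) t).const_mul p
    refine h1.congr_deriv ?_
    have : p - 1 - 1 = p - 2 := by ring
    rw [this]
    ring
  have g0 : ∀ t, HasDerivAt (fun x => mp p x) (p * mp (p - 1) t) t := fun t =>
    hasDerivAt_mp (by linarith) t
  have hz : ∀ s : ℝ, 0 < s → mp s (-R) = 0 := fun s hs => mp_of_nonpos hs (by linarith)
  -- lower bounds
  have l3 : ∀ x ∈ Set.Icc (-R) R, p * (p - 1) * (p - 2) * mp (p - 3) x ≤ f3.eval x :=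
    cmpR g3 d3 (by rw [z3, hz _ (by linarith), mul_zero])
      (fun s hs => by have := abs_lt.1 (hq s hs); linarith)
  have l2 : ∀ x ∈ Set.Icc (-R) R, p * (p - 1) * mp (p - 2) x ≤ f2.eval x :=
    cmpR g2 d2 (by rw [z2, hz _ (by linarith), mul_zero]) l3
  have l1 : ∀ x ∈ Set.Icc (-R) R, p * mp (p - 1) x ≤ f1.eval x :=
    cmpR g1 d1 (by rw [z1, hz _ (by linarith), mul_zero]) l2
  have l0 : ∀ x ∈ Set.Icc (-R) R, mp p x ≤ f.eval x :=
    cmpR g0 d0 (by rw [z0, hz _ (by linarith)]) l1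
  -- upper bounds
  have u3 : ∀ x ∈ Set.Icc (-R) R, f3.eval x ≤ p * (p - 1) * (p - 2) * mp (p - 3) x +
      2 * δ * (x + R) ^ (0 + 1) :=
    cmpR d3 (fun t => (g3 t).add (pd (2 * δ) 0 t))
      (by rw [z3, hz _ (by linarith)]; simp)
      (fun s hs => by
        have := abs_lt.1 (hq s hs)
        simp only [Nat.cast_zero, pow_zero]
        linarith)
  have u2 : ∀ x ∈ Set.Icc (-R) R, f2.eval x ≤ p * (p - 1) * mp (p - 2) x +
      δ * (x + R) ^ (1 + 1) :=
    cmpR d2 (fun t => (g2 t).add (pd δ 1 t))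
      (by rw [z2, hz _ (by linarith)]; simp)
      (fun s hs => by
        have := u3 s hs
        push_cast
        norm_num at this ⊢
        linarith)
  have u1 : ∀ x ∈ Set.Icc (-R) R, f1.eval x ≤ p * mp (p - 1) x +
      (δ / 3) * (x + R) ^ (2 + 1) :=
    cmpR d1 (fun t => (g1 t).add (pd (δ / 3) 2 t))
      (by rw [z1, hz _ (by linarith)]; simp)
      (fun s hs => by
        have := u2 s hs
        push_cast
        norm_num at this ⊢
        linarith)
  have u0 : ∀ x ∈ Set.Icc (-R) R, f.eval x ≤ mp p x +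
      (δ / 12) * (x + R) ^ (3 + 1) :=
    cmpR d0 (fun t => (g0 t).add (pd (δ / 12) 3 t))
      (by rw [z0, hz _ (by linarith)]; simp)
      (fun s hs => by
        have := u1 s hs
        push_cast
        norm_num at this ⊢
        linarith)
  have hδT : δ * T = e := by
    rw [hδ]
    field_simp
  refine ⟨f, ?_⟩
  intro x hx
  have hx' : x ∈ Set.Icc (-R) R := abs_le.1 hx
  have hxR : x + R ≤ 2 * R := by linarith [hx'.2]
  have hxR0 : 0 ≤ x + R := by linarith [hx'.1]
  have q3 : (x + R) ^ 3 ≤ (2 * R) ^ 3 := pow_le_pow_left₀ hxR0 hxR 3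
  have q4 : (x + R) ^ 4 ≤ (2 * R) ^ 4 := pow_le_pow_left₀ hxR0 hxR 4
  have r3 : δ * (x + R) ^ 3 ≤ e := by
    have h1 : δ * (x + R) ^ 3 ≤ δ * (2 * R) ^ 3 := mul_le_mul_of_nonneg_left q3 hδ0.le
    have h2 : 0 ≤ δ * (2 * R) ^ 4 := by positivity
    rw [hT] at hδT
    nlinarith
  have r4 : δ * (x + R) ^ 4 ≤ e := by
    have h1 : δ * (x + R) ^ 4 ≤ δ * (2 * R) ^ 4 := mul_le_mul_of_nonneg_left q4 hδ0.le
    have h2 : 0 ≤ δ * (2 * R) ^ 3 := by positivity
    rw [hT] at hδT
    nlinarith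
  have q2 : (x + R) ^ 2 ≤ (2 * R) ^ 2 := pow_le_pow_left₀ hxR0 hxR 2
  have r2 : δ * (x + R) ^ 2 ≤ e := by
    have h1 : δ * (x + R) ^ 2 ≤ δ * (2 * R) ^ 2 := mul_le_mul_of_nonneg_left q2 hδ0.le
    have h2 : δ * (2 * R) ^ 2 ≤ δ * (1 + (2 * R) ^ 4) := by
      apply mul_le_mul_of_nonneg_left _ hδ0.le
      nlinarith [sq_nonneg ((2 * R) ^ 2 - 1)]
    have h3 : 0 ≤ δ * (2 * R) ^ 3 := by positivity
    rw [hT] at hδT
    nlinarith
  have r2' : 0 ≤ δ * (x + R) ^ 2 := by positivity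
  have r3' : 0 ≤ δ * (x + R) ^ 3 := by positivity
  have r4' : 0 ≤ δ * (x + R) ^ 4 := by positivity
  have hmp : mp (p - 4) x ≤ R ^ (p - 4) := by
    rw [mp]
    apply Real.rpow_le_rpow (le_max_right _ _) _ (by linarith)
    exact max_le hx'.2 hR.le
  have hq' := abs_lt.1 (hq x hx')
  rw [hf, hf1, hf2, hf3]
  refine ⟨?_, ?_, ?_, ?_, ?_, ?_, ?_⟩
  · have := l2 x hx'
    have h1 : 0 ≤ p * (p - 1) * mp (p - 2) x :=
      mul_nonneg (mul_nonneg (by linarith) (by linarith)) (mp_nonneg _ _)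
    linarith
  · have := l3 x hx'
    have h1 : 0 ≤ p * (p - 1) * (p - 2) * mp (p - 3) x :=
      mul_nonneg (mul_nonneg (mul_nonneg (by linarith) (by linarith)) (by linarith))
        (mp_nonneg _ _)
    linarith
  · have h1 : 0 ≤ p * (p - 1) * (p - 2) * (p - 3) * mp (p - 4) x :=
      mul_nonneg hc4.le (mp_nonneg _ _)
    linarith
  · have h1 : p * (p - 1) * (p - 2) * (p - 3) * mp (p - 4) x ≤
        p * (p - 1) * (p - 2) * (p - 3) * R ^ (p - 4) :=
      mul_le_mul_of_nonneg_left hmp hc4.le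
    linarith
  · have h1 := l0 x hx'
    have h2 := u0 x hx'
    norm_num at h2
    rw [abs_le]
    constructor
    · linarith
    · linarith
  · have h1 := l1 x hx'
    have h2 := u1 x hx'
    norm_num at h2
    rw [abs_le]
    constructor
    · linarith
    · linarith
  · have h1 := l2 x hx'
    have h2 := u2 x hx'
    norm_num at h2
    rw [abs_le]
    constructor
    · linarith
    · linarith


theorem trF_close' {f g : ℝ → ℝ} {Y : Matrix ι ι ℂ} (hY : Y.IsHermitian) {e : ℝ}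
    (h : ∀ x ∈ spectrum ℝ Y, |f x - g x| ≤ e) :
    |trF f Y - trF g Y| ≤ Fintype.card ι * e := by
  unfold trF
  rw [dif_pos hY, dif_pos hY, ← Finset.sum_sub_distrib]
  refine (Finset.abs_sum_le_sum_abs _ _).trans ?_
  refine (Finset.sum_le_sum (g := fun _ => e) fun i _ => ?_).trans ?_
  · exact h _ (hY.eigenvalues_mem_spectrum_real i)
  · simp

theorem dd1_int (g : ℝ[X]) (x y : ℝ) :
    dd1 g x y = ∫ t in (0 : ℝ)..1, (derivative g).eval (t * x + (1 - t) * y) := by
  rcases eq_or_ne x y with h | h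
  · subst h
    rw [dd1_self]
    have e : ∀ t : ℝ, (derivative g).eval (t * x + (1 - t) * x) = (derivative g).eval x := by
      intro t
      congr 1
      ring
    simp [e]
  · have hd : ∀ t : ℝ, HasDerivAt (fun t => g.eval (t * x + (1 - t) * y))
        ((derivative g).eval (t * x + (1 - t) * y) * (x - y)) t := by
      intro t
      have h1 : HasDerivAt (fun t : ℝ => t * x + (1 - t) * y) (x - y) t := by
        have h2 := ((hasDerivAt_id t).mul_const x).add
          (((hasDerivAt_const t (1 : ℝ)).sub (hasDerivAt_id t)).mul_const y)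
        refine h2.congr_deriv ?_
        simp
        ring
      exact (g.hasDerivAt (t * x + (1 - t) * y)).comp t h1
    have hi : IntervalIntegrable (fun t : ℝ => (derivative g).eval (t * x + (1 - t) * y) * (x - y))
        MeasureTheory.volume 0 1 := by
      apply Continuous.intervalIntegrable
      have := (derivative g).continuous
      fun_prop
    have h3 := intervalIntegral.integral_eq_sub_of_hasDerivAt (fun t _ => hd t) hi
    rw [intervalIntegral.integral_mul_const] at h3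
    have h4 := dd1_mul g x y
    have e1 : (1 : ℝ) * x + (1 - 1) * y = x := by ring
    have e2 : (0 : ℝ) * x + (1 - 0) * y = y := by ring
    rw [e1, e2] at h3
    have hne : x - y ≠ 0 := sub_ne_zero.2 h
    apply mul_left_cancel₀ hne
    rw [h4, ← h3]
    ring

theorem dd1_hk {f : ℝ[X]} {p R e x y : ℝ} (hp : 2 < p) (hx : 0 < x) (hy : 0 < y) (hxR : x ≤ R)
    (hyR : y ≤ R)
    (h : ∀ x, |x| ≤ R → |(derivative (derivative f)).eval x - p * (p - 1) * mp (p - 2) x| ≤ e) :
    |dd1 (derivative f) x y - p * (p - 1) * hk p x y| ≤ e := by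
  rw [dd1_int, hk, ← intervalIntegral.integral_const_mul]
  have hpos : ∀ t ∈ Set.Icc (0 : ℝ) 1, 0 ≤ t * x + (1 - t) * y ∧ t * x + (1 - t) * y ≤ R := by
    intro t ht
    have h1 : 0 ≤ 1 - t := by linarith [ht.2]
    constructor
    · have := mul_nonneg ht.1 hx.le
      have := mul_nonneg h1 hy.le
      linarith
    · have := mul_le_mul_of_nonneg_left hxR ht.1
      have := mul_le_mul_of_nonneg_left hyR h1
      linarith
  have hi1 : IntervalIntegrable (fun t : ℝ => (derivative (derivative f)).eval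
      (t * x + (1 - t) * y)) MeasureTheory.volume 0 1 := by
    apply Continuous.intervalIntegrable
    have := (derivative (derivative f)).continuous
    fun_prop
  have hi2 : IntervalIntegrable (fun t : ℝ => p * (p - 1) * (t * x + (1 - t) * y) ^ (p - 2))
      MeasureTheory.volume 0 1 := by
    apply Continuous.intervalIntegrable
    apply Continuous.mul continuous_const
    apply Continuous.rpow_const (by fun_prop)
    intro t
    right
    linarith
  rw [← intervalIntegral.integral_sub hi1 hi2]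
  have h3 := intervalIntegral.norm_integral_le_of_norm_le_const (a := (0 : ℝ)) (b := 1) (C := e)
    (f := fun t : ℝ => (derivative (derivative f)).eval (t * x + (1 - t) * y) -
      p * (p - 1) * (t * x + (1 - t) * y) ^ (p - 2)) (by
    intro t ht
    rw [Set.uIoc_of_le zero_le_one] at ht
    obtain ⟨k1, k2⟩ := hpos t ⟨ht.1.le, ht.2⟩
    rw [Real.norm_eq_abs]
    have h4 := h (t * x + (1 - t) * y) (abs_le.2 ⟨by linarith, k2⟩)
    have h5 : mp (p - 2) (t * x + (1 - t) * y) = (t * x + (1 - t) * y) ^ (p - 2) := by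
      rw [mp, max_eq_left k1]
    rwa [h5] at h4)
  rw [Real.norm_eq_abs] at h3
  norm_num at h3
  exact h3

theorem lim_le {x y K : ℝ} (h : ∀ e : ℝ, 0 < e → e ≤ 1 → x ≤ y + K * e) : x ≤ y := by
  by_contra hxy
  rw [not_le] at hxy
  have hd : 0 < x - y := by linarith
  have hK : 0 < |K| + 1 := by positivity
  set e : ℝ := min 1 ((x - y) / (2 * (|K| + 1))) with he
  have he0 : 0 < e := lt_min one_pos (by positivity)
  have he1 : e ≤ 1 := min_le_left _ _
  have he2 : e ≤ (x - y) / (2 * (|K| + 1)) := min_le_right _ _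
  have h1 := h e he0 he1
  have h2 : K * e ≤ (|K| + 1) * e := by
    apply mul_le_mul_of_nonneg_right _ he0.le
    linarith [le_abs_self K]
  have h3 : (|K| + 1) * e ≤ (x - y) / 2 := by
    have := mul_le_mul_of_nonneg_left he2 hK.le
    have e1 : (|K| + 1) * ((x - y) / (2 * (|K| + 1))) = (x - y) / 2 := by field_simp
    linarith
  linarith

/-- one real variable: the even part -/
theorem even4 {u : ℕ → ℝ → ℝ} (hd : ∀ k t, HasDerivAt (u k) (((k : ℝ) + 1) * u (k + 1) t) t)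
    (h4 : ∀ s ∈ Set.Icc (-1 : ℝ) 1, 0 ≤ u 4 s) :
    u 2 0 ≤ (u 0 1 + u 0 (-1)) / 2 - u 0 0 ∧
    ∀ c ∈ Set.Icc (0 : ℝ) 1, (u 0 c + u 0 (-c)) / 2 - u 0 0 - u 2 0 * c ^ 2 ≤
      c ^ 3 * ((u 0 1 + u 0 (-1)) / 2 - u 0 0 - u 2 0) := by
  set v : ℕ → ℝ → ℝ := fun k s => (u k s + (-1) ^ k * u k (-s)) / 2 with hv
  have hdv : ∀ k t, HasDerivAt (v k) (((k : ℝ) + 1) * v (k + 1) t) t := by
    intro k t
    have h1 := ((hd k t).add (((hd k (-t)).comp t (hasDerivAt_neg t)).const_mul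
      ((-1 : ℝ) ^ k))).div_const 2
    refine h1.congr_deriv ?_
    simp only [hv]
    rw [pow_succ]
    ring
  have v4 : ∀ s ∈ Set.Icc (0 : ℝ) 1, 0 ≤ v 4 s := by
    intro s hs
    have a1 := h4 s ⟨by linarith [hs.1], hs.2⟩
    have a2 := h4 (-s) ⟨by linarith [hs.2], by linarith [hs.1]⟩
    simp only [hv]
    norm_num
    linarith
  have w0 : ∀ s, v 0 s = (u 0 s + u 0 (-s)) / 2 := by
    intro s
    simp only [hv]
    norm_num
  have w00 : v 0 0 = u 0 0 := by
    rw [w0]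
    norm_num
  have w1 : v 1 0 = 0 := by
    simp only [hv]
    norm_num
  have w2 : v 2 0 = u 2 0 := by
    simp only [hv]
    norm_num
  have w3 : v 3 0 = 0 := by
    simp only [hv]
    norm_num
  have d0 : ∀ t, HasDerivAt (v 0) (v 1 t) t := fun t => by simpa using hdv 0 t
  have d1 : ∀ t, HasDerivAt (v 1) (2 * v 2 t) t := fun t => by
    have := hdv 1 t
    norm_num at this
    exact this
  have d2 : ∀ t, HasDerivAt (v 2) (3 * v 3 t) t := fun t => by
    have := hdv 2 t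
    norm_num at this
    exact this
  have d3 : ∀ t, HasDerivAt (v 3) (4 * v 4 t) t := fun t => by
    have := hdv 3 t
    norm_num at this
    exact this
  have pd : ∀ (a b c : ℝ) (t : ℝ), HasDerivAt (fun s : ℝ => a + b * s + c * s ^ 2)
      (b + 2 * c * t) t := by
    intro a b c t
    have h1 := ((hasDerivAt_const t a).add ((hasDerivAt_id t).const_mul b)).add
      ((hasDerivAt_pow 2 t).const_mul c)
    refine h1.congr_deriv ?_
    simp
    ring
  -- `v 3` is nonnegative and monotone on `[0, 1]`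
  have m3 : ∀ s ∈ Set.Icc (0 : ℝ) 1, ∀ c ∈ Set.Icc (0 : ℝ) 1, v 3 (c * s) ≤ v 3 s := by
    intro s hs c hc
    have hm : MonotoneOn (v 3) (Set.Icc 0 1) := by
      apply monotoneOn_of_deriv_nonneg (convex_Icc 0 1)
      · intro t _
        exact (d3 t).continuousAt.continuousWithinAt
      · intro t _
        exact (d3 t).differentiableAt.differentiableWithinAt
      · intro t ht
        rw [(d3 t).deriv]
        rw [interior_Icc] at ht
        have := v4 t ⟨ht.1.le, ht.2.le⟩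
        linarith
    have h1 : c * s ≤ s := by
      have := mul_le_mul_of_nonneg_right hc.2 hs.1
      linarith
    exact hm ⟨mul_nonneg hc.1 hs.1, h1.trans hs.2⟩ hs h1
  have p3 : ∀ s ∈ Set.Icc (0 : ℝ) 1, 0 ≤ v 3 s := by
    intro s hs
    have := m3 s hs 0 ⟨le_rfl, zero_le_one⟩
    rw [zero_mul, w3] at this
    exact this
  have p2 : ∀ s ∈ Set.Icc (0 : ℝ) 1, u 2 0 + 0 * s + 0 * s ^ 2 ≤ v 2 s :=
    cmp (pd _ _ _) d2 (by rw [w2]; simp) (fun s hs => by have := p3 s hs; nlinarith)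
  have p1 : ∀ s ∈ Set.Icc (0 : ℝ) 1, 0 + 2 * u 2 0 * s + 0 * s ^ 2 ≤ v 1 s :=
    cmp (pd _ _ _) d1 (by rw [w1]; simp) (fun s hs => by have := p2 s hs; nlinarith)
  have p0 : ∀ s ∈ Set.Icc (0 : ℝ) 1, u 0 0 + 0 * s + u 2 0 * s ^ 2 ≤ v 0 s :=
    cmp (pd _ _ _) d0 (by rw [w00]; simp) (fun s hs => by have := p1 s hs; nlinarith)
  constructor
  · have h1 := p0 1 ⟨zero_le_one, le_rfl⟩
    rw [w0] at h1
    linarith
  · intro c hc
    have hlin : ∀ t : ℝ, HasDerivAt (fun s : ℝ => c * s) c t := by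
      intro t
      simpa using (hasDerivAt_id t).const_mul c
    have r2 : ∀ s ∈ Set.Icc (0 : ℝ) 1, 2 * c ^ 2 * (v 2 (c * s) - u 2 0) ≤
        2 * c ^ 3 * (v 2 s - u 2 0) := by
      refine cmp (a' := fun t => 2 * c ^ 2 * (3 * v 3 (c * t) * c))
        (b' := fun t => 2 * c ^ 3 * (3 * v 3 t)) ?_ ?_ ?_ ?_
      · intro t
        exact ((((d2 (c * t)).comp t (hlin t)).sub_const _).const_mul _)
      · intro t
        exact (((d2 t).sub_const _).const_mul _)
      · simp [w2]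
      · intro s hs
        have h1 := m3 s hs c hc
        have h2 : 0 ≤ 6 * c ^ 3 := by have := hc.1; positivity
        have h3 := mul_le_mul_of_nonneg_left h1 h2
        nlinarith
    have r1 : ∀ s ∈ Set.Icc (0 : ℝ) 1, c * v 1 (c * s) - 2 * c ^ 2 * u 2 0 * s ≤
        c ^ 3 * v 1 s - 2 * c ^ 3 * u 2 0 * s := by
      refine cmp (a' := fun t => c * (2 * v 2 (c * t) * c) - 2 * c ^ 2 * u 2 0)
        (b' := fun t => c ^ 3 * (2 * v 2 t) - 2 * c ^ 3 * u 2 0) ?_ ?_ ?_ ?_
      · intro t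
        have h1 := (((d1 (c * t)).comp t (hlin t)).const_mul c).sub
          ((hasDerivAt_id t).const_mul (2 * c ^ 2 * u 2 0))
        refine h1.congr_deriv ?_
        ring
      · intro t
        have h1 := ((d1 t).const_mul (c ^ 3)).sub
          ((hasDerivAt_id t).const_mul (2 * c ^ 3 * u 2 0))
        refine h1.congr_deriv ?_
        ring
      · simp [w1]
      · intro s hs
        have := r2 s hs
        nlinarith
    have r0 : ∀ s ∈ Set.Icc (0 : ℝ) 1, v 0 (c * s) - u 0 0 - c ^ 2 * u 2 0 * s ^ 2 ≤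
        c ^ 3 * (v 0 s - u 0 0) - c ^ 3 * u 2 0 * s ^ 2 := by
      refine cmp (a' := fun t => v 1 (c * t) * c - 2 * c ^ 2 * u 2 0 * t)
        (b' := fun t => c ^ 3 * v 1 t - 2 * c ^ 3 * u 2 0 * t) ?_ ?_ ?_ ?_
      · intro t
        have h1 := (((d0 (c * t)).comp t (hlin t)).sub_const (u 0 0)).sub
          ((hasDerivAt_pow 2 t).const_mul (c ^ 2 * u 2 0))
        refine h1.congr_deriv ?_
        simp
        ring
      · intro t
        have h1 := (((d0 t).sub_const (u 0 0)).const_mul (c ^ 3)).sub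
          ((hasDerivAt_pow 2 t).const_mul (c ^ 3 * u 2 0))
        refine h1.congr_deriv ?_
        simp
        ring
      · simp [w00]
      · intro s hs
        have := r1 s hs
        nlinarith
    have h1 := r0 1 ⟨zero_le_one, le_rfl⟩
    rw [mul_one, w0, w0] at h1
    linarith

/-- `2 p (p - 1) / 2 ^ 2 · m_1`, `m_1 = ∑ |D i j|² hk p (a i) (a j)` -/
theorem dd_sum {f : ℝ[X]} {p R e : ℝ} (hp : 2 < p) {a : ι → ℝ} (ha : ∀ i, 0 < a i)
    (haR : ∀ i, a i ≤ R) {D : Matrix ι ι ℂ} (hD : D.IsHermitian)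
    (h : ∀ x, |x| ≤ R → |(derivative (derivative f)).eval x - p * (p - 1) * mp (p - 2) x| ≤ e) :
    |DD (derivative f) (dg a) D 1 - p * (p - 1) * ∑ i, ∑ j, ‖D i j‖ ^ 2 * hk p (a i) (a j)| ≤
      (∑ i, ∑ j, ‖D i j‖ ^ 2) * e := by
  have e1 : DD (derivative f) (dg a) D 1 =
      ∑ i, ∑ j, ‖D i j‖ ^ 2 * dd1 (derivative f) (a i) (a j) := by
    unfold dg
    rw [DD_diag1, Complex.re_sum]
    apply Finset.sum_congr rfl
    intro i _
    rw [Complex.re_sum]
    apply Finset.sum_congr rfl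
    intro j _
    have e2 : D j i = (starRingEnd ℂ) (D i j) := by
      rw [← hD.apply j i]
      rfl
    rw [e2, Complex.mul_conj, ← Complex.ofReal_mul, Complex.ofReal_re, Complex.normSq_eq_norm_sq]
  have e3 : DD (derivative f) (dg a) D 1 - p * (p - 1) * ∑ i, ∑ j, ‖D i j‖ ^ 2 *
      hk p (a i) (a j) = ∑ i, ∑ j, ‖D i j‖ ^ 2 *
        (dd1 (derivative f) (a i) (a j) - p * (p - 1) * hk p (a i) (a j)) := by
    rw [e1, Finset.mul_sum, ← Finset.sum_sub_distrib]
    apply Finset.sum_congr rfl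
    intro i _
    rw [Finset.mul_sum, ← Finset.sum_sub_distrib]
    apply Finset.sum_congr rfl
    intro j _
    ring
  rw [e3, Finset.sum_mul]
  refine (Finset.abs_sum_le_sum_abs _ _).trans (Finset.sum_le_sum fun i _ => ?_)
  rw [Finset.sum_mul]
  refine (Finset.abs_sum_le_sum_abs _ _).trans (Finset.sum_le_sum fun j _ => ?_)
  rw [abs_mul, abs_of_nonneg (sq_nonneg _)]
  exact mul_le_mul_of_nonneg_left (dd1_hk hp (ha i) (ha j) (haR i) (haR j) h) (sq_nonneg _)

/-- BLOCK A: the Taylor inequalities of order four for `s ↦ G (A, s D)` -/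
theorem fourA {p : ℝ} (hp : 4 < p) {a : ι → ℝ} (ha : ∀ i, 0 < a i) {D : Matrix ι ι ℂ}
    (h : IsPair (dg a) D) :
    p * (p - 1) / 2 * (∑ i, ∑ j, ‖D i j‖ ^ 2 * hk p (a i) (a j)) ≤ G p (dg a) D ∧
    ∀ c ∈ Set.Icc (0 : ℝ) 1, G p (dg a) ((c : ℂ) • D) - p * (p - 1) / 2 * c ^ 2 *
        (∑ i, ∑ j, ‖D i j‖ ^ 2 * hk p (a i) (a j)) ≤
      c ^ 3 * (G p (dg a) D - p * (p - 1) / 2 *
        (∑ i, ∑ j, ‖D i j‖ ^ 2 * hk p (a i) (a j))) := by
  have hA : (dg a).IsHermitian := h.pos.isHermitian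
  have hD : D.IsHermitian := by
    have h3 : ((dg a + D) - dg a).IsHermitian := h.add.isHermitian.sub hA
    rwa [add_sub_cancel_left] at h3
  obtain ⟨R1, hR1, hRR⟩ := spec_bound2 hA hD 0 1
  have hsum : ∀ i, a i ≤ ∑ i, a i := fun i =>
    Finset.single_le_sum (fun j _ => (ha j).le) (Finset.mem_univ i)
  have hsum0 : 0 ≤ ∑ i, a i := Finset.sum_nonneg fun j _ => (ha j).le
  set R : ℝ := R1 + ∑ i, a i with hRdef
  have hR0 : 0 < R := by linarith
  have hR : ∀ u ∈ Set.Icc (0 : ℝ) 0, ∀ z ∈ Set.Icc (-1 : ℝ) 1,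
      ∀ x ∈ spectrum ℝ (dg a - (u : ℂ) • (1 : Matrix ι ι ℂ) - (z : ℂ) • D), |x| ≤ R := by
    intro u hu z hz x hx
    have := hRR u hu z hz x hx
    linarith
  have hY : ∀ s : ℝ, s ∈ Set.Icc (-1 : ℝ) 1 → ∀ x ∈ spectrum ℝ (dg a + (s : ℂ) • D), |x| ≤ R := by
    intro s hs x hx
    apply hR 0 ⟨le_rfl, le_rfl⟩ (-s) ⟨by linarith [hs.2], by linarith [hs.1]⟩ x
    have e : dg a - ((0 : ℝ) : ℂ) • (1 : Matrix ι ι ℂ) - ((-s : ℝ) : ℂ) • D =
        dg a + (s : ℂ) • D := by
      push_cast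
      rw [zero_smul, sub_zero, neg_smul, sub_neg_eq_add]
    rwa [e]
  have hYh : ∀ s : ℝ, (dg a + (s : ℂ) • D).IsHermitian := fun s => hA.add (herm_real_smul hD s)
  have hYp : ∀ s : ℝ, s ∈ Set.Icc (-1 : ℝ) 1 → (dg a + (s : ℂ) • D).PosSemidef := by
    intro s hs
    have h1 : 0 ≤ (1 + s) / 2 := by linarith [hs.1]
    have h2 : 0 ≤ (1 - s) / 2 := by linarith [hs.2]
    have h3 : dg a + (s : ℂ) • D = ((1 + s) / 2) • (dg a + D) + ((1 - s) / 2) • (dg a - D) := by
      ext i j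
      simp only [Matrix.add_apply, Matrix.smul_apply, Matrix.sub_apply, smul_eq_mul,
        Complex.real_smul]
      push_cast
      ring
    rw [h3]
    exact (h.add.smul h1).add (h.sub.smul h2)
  have haR : ∀ i, a i ≤ R := by
    intro i
    have := hsum i
    linarith
  obtain ⟨M4, hM4, happ⟩ := approx2 hp hR0
  set m : ℝ := ∑ i, ∑ j, ‖D i j‖ ^ 2 * hk p (a i) (a j) with hm
  set S : ℝ := ∑ i, ∑ j, ‖D i j‖ ^ 2 with hS
  have hS0 : 0 ≤ S := Finset.sum_nonneg fun i _ => Finset.sum_nonneg fun j _ => sq_nonneg _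
  set n : ℝ := (Fintype.card ι : ℝ) with hn
  have hn0 : 0 ≤ n := Nat.cast_nonneg _
  -- the statement at the level of polynomials
  have key : ∀ e : ℝ, 0 < e → e ≤ 1 → ∃ U : ℝ → ℝ, ∃ q : ℝ,
      (∀ s ∈ Set.Icc (-1 : ℝ) 1,
        |U s - trF (fun x => x ^ p) (dg a + (s : ℂ) • D)| ≤ n * e) ∧
      |2 * q - p * (p - 1) * m| ≤ S * e ∧
      q ≤ (U 1 + U (-1)) / 2 - U 0 ∧
      ∀ c ∈ Set.Icc (0 : ℝ) 1, (U c + U (-c)) / 2 - U 0 - q * c ^ 2 ≤
        c ^ 3 * ((U 1 + U (-1)) / 2 - U 0 - q) := by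
    intro e he he1
    obtain ⟨f, hf⟩ := happ e he he1
    set u : ℕ → ℝ → ℝ := fun k s => CC f (dg a + (s : ℂ) • D) D k with hu
    have hd : ∀ k t, HasDerivAt (u k) (((k : ℝ) + 1) * u (k + 1) t) t := fun k t =>
      hasDerivAt_CC f (dg a) D k t
    have u4 : ∀ s ∈ Set.Icc (-1 : ℝ) 1, 0 ≤ u 4 s := by
      intro s hs
      have h1 := CC_succ f (dg a + (s : ℂ) • D) D 3
      have h2 := DD3_nonneg Pool.Agent.Lib_helper42.T56.pos3 (hYh s) hD (hY s hs) (derivative f)
        (fun r hr => (hf r hr).2.2.1)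
      have e34 : ((3 : ℕ) : ℝ) + 1 = 4 := by norm_num
      rw [e34] at h1
      simp only [hu]
      linarith
    obtain ⟨g1, g2⟩ := even4 hd u4
    have g0 : ∀ s, u 0 s = ((aeval (dg a + (s : ℂ) • D) f).trace).re := fun s => CC_zero _ _ _
    have hx0 : dg a + ((0 : ℝ) : ℂ) • D = dg a := by simp
    refine ⟨u 0, u 2 0, ?_, ?_, g1, g2⟩
    · intro s hs
      rw [g0, ← TRF.trF_poly f (hYh s)]
      apply trF_close' (hYh s)
      intro x hx
      have hx1 := hY s hs x hx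
      have hx2 : 0 ≤ x := by
        rw [(hYh s).spectrum_real_eq_range_eigenvalues] at hx
        obtain ⟨i, rfl⟩ := hx
        exact (hYp s hs).eigenvalues_nonneg i
      have h3 := (hf x hx1).2.2.2.2.1
      have h4 : mp p x = x ^ p := by rw [mp, max_eq_left hx2]
      rwa [h4] at h3
    · have h1 := CC_succ f (dg a + ((0 : ℝ) : ℂ) • D) D 1
      have h2 := dd_sum (f := f) (e := e) (show 2 < p by linarith) ha haR hD
        (fun x hx => (hf x hx).2.2.2.2.2.2)
      have e12 : ((1 : ℕ) : ℝ) + 1 = 2 := by norm_num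
      rw [e12, hx0] at h1
      have h3 : 2 * u 2 0 = DD (derivative f) (dg a) D 1 := by
        simp only [hu]
        rw [hx0]
        exact h1
      rw [h3]
      exact h2
  have hG : ∀ c : ℝ, G p (dg a) ((c : ℂ) • D) =
      (trF (fun x => x ^ p) (dg a + (c : ℂ) • D) +
        trF (fun x => x ^ p) (dg a + ((-c : ℝ) : ℂ) • D)) / 2 -
        trF (fun x => x ^ p) (dg a + ((0 : ℝ) : ℂ) • D) := by
    intro c
    have e1 : dg a + ((-c : ℝ) : ℂ) • D = dg a - (c : ℂ) • D := by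
      push_cast
      rw [neg_smul, sub_eq_add_neg]
    have e2 : dg a + ((0 : ℝ) : ℂ) • D = dg a := by simp
    rw [e1, e2]
    rfl
  have hG1 : G p (dg a) D = G p (dg a) (((1 : ℝ) : ℂ) • D) := by simp
  rw [hG1]
  constructor
  · refine lim_le (K := S / 2 + 2 * n) ?_
    intro e he he1
    obtain ⟨U, q, k1, k2, k3, -⟩ := key e he he1
    have a1 := abs_le.1 (k1 1 ⟨by norm_num, le_rfl⟩)
    have a2 := abs_le.1 (k1 (-1) ⟨le_rfl, by norm_num⟩)
    have a3 := abs_le.1 (k1 0 ⟨by norm_num, by norm_num⟩)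
    have a4 := abs_le.1 k2
    rw [hG]
    linarith [a1.1, a1.2, a2.1, a2.2, a3.1, a3.2, a4.1, a4.2]
  · intro c hc
    refine lim_le (K := S + 4 * n) ?_
    intro e he he1
    obtain ⟨U, q, k1, k2, k3, k4⟩ := key e he he1
    have a1 := abs_le.1 (k1 1 ⟨by norm_num, le_rfl⟩)
    have a2 := abs_le.1 (k1 (-1) ⟨le_rfl, by norm_num⟩)
    have a3 := abs_le.1 (k1 0 ⟨by norm_num, by norm_num⟩)
    have a4 := abs_le.1 k2
    have a5 := abs_le.1 (k1 c ⟨by linarith [hc.1], hc.2⟩)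
    have a6 := abs_le.1 (k1 (-c) ⟨by linarith [hc.2], by linarith [hc.1]⟩)
    have a7 := k4 c hc
    rw [hG, hG]
    have hc3 : 0 ≤ c ^ 3 := pow_nonneg hc.1 3
    have hc31 : c ^ 3 ≤ 1 := pow_le_one₀ hc.1 hc.2
    have hc2 : 0 ≤ c ^ 2 := pow_nonneg hc.1 2
    have hc21 : c ^ 2 ≤ 1 := pow_le_one₀ hc.1 hc.2
    have hne : 0 ≤ n * e := by positivity
    have hSe : 0 ≤ S * e := by positivity
    set T1 := trF (fun x : ℝ => x ^ p) (dg a + ((1 : ℝ) : ℂ) • D)
    set T2 := trF (fun x : ℝ => x ^ p) (dg a + ((-1 : ℝ) : ℂ) • D)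
    set T0 := trF (fun x : ℝ => x ^ p) (dg a + ((0 : ℝ) : ℂ) • D)
    set T3 := trF (fun x : ℝ => x ^ p) (dg a + (c : ℂ) • D)
    set T4 := trF (fun x : ℝ => x ^ p) (dg a + ((-c : ℝ) : ℂ) • D)
    -- right side
    have b1 : (U 1 + U (-1)) / 2 - U 0 - q ≤
        (T1 + T2) / 2 - T0 - p * (p - 1) / 2 * m + (2 * n * e + S * e / 2) := by
      linarith [a1.1, a1.2, a2.1, a2.2, a3.1, a3.2, a4.1, a4.2]
    have b2 := mul_le_mul_of_nonneg_left b1 hc3
    have b3 : c ^ 3 * (2 * n * e + S * e / 2) ≤ 2 * n * e + S * e / 2 := by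
      have : 0 ≤ 2 * n * e + S * e / 2 := by linarith
      nlinarith
    have b4 : -(S * e / 2) ≤ (p * (p - 1) / 2 * m - q) * c ^ 2 := by
      have b5 : -(S * e / 2) ≤ p * (p - 1) / 2 * m - q := by linarith [a4.1, a4.2]
      have b6 := mul_le_mul_of_nonneg_right b5 hc2
      have b7 : -(S * e / 2) ≤ -(S * e / 2) * c ^ 2 := by nlinarith
      linarith
    have b8 : (T3 + T4) / 2 - T0 ≤ (U c + U (-c)) / 2 - U 0 + 2 * n * e := by
      linarith [a5.1, a5.2, a6.1, a6.2, a3.1, a3.2]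
    linarith

end Pool.Agent.Lib_helper30.TN
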