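import Pool.Agent.Lib_helper30.TN.Taylor
import Pool.Agent.Lib_helper30.TN.Approx
import Pool.Agent.Lib_helper30.MOD.Kl

/-!
# Three- and four-tone Taylor inequalities for `Tr (X - z N)_+ ^ p`
-/

open Polynomial Matrix Pool.Agent.Lib_helper42.T56 Pool.Agent.RC
open scoped ComplexOrder MatrixOrder

namespace Pool.Agent.Lib_helper30.TN

variable {ι : Type} [Fintype ι] [DecidableEq ι]

theorem spec_bound {X N : Matrix ι ι ℂ} (hX : X.IsHermitian) (hN : N.IsHermitian) {Z : ℝ}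
    (hZ : 0 ≤ Z) : ∃ R : ℝ, 0 < R ∧
    ∀ z ∈ Set.Icc 0 Z, ∀ x ∈ spectrum ℝ (X - (z : ℂ) • N), |x| ≤ R := by
  set a : ℝ := |((X ^ 2).trace).re| with ha
  set b : ℝ := |((X * N).trace).re| with hb
  set c : ℝ := |((N ^ 2).trace).re| with hc
  have ha0 : 0 ≤ a := abs_nonneg _
  have hb0 : 0 ≤ b := abs_nonneg _
  have hc0 : 0 ≤ c := abs_nonneg _
  refine ⟨a + 2 * Z * b + Z ^ 2 * c + 1, by positivity, ?_⟩
  intro z hz x hx
  have hY : (X - (z : ℂ) • N).IsHermitian := hX.sub (herm_real_smul hN z)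
  rw [hY.spectrum_real_eq_range_eigenvalues] at hx
  obtain ⟨i, rfl⟩ := hx
  have h1 := TRF.eig_sq_le hY i
  have e : (((X - (z : ℂ) • N) ^ 2).trace).re =
      ((X ^ 2).trace).re - 2 * z * ((X * N).trace).re + z ^ 2 * ((N ^ 2).trace).re := by
    have e1 : (X - (z : ℂ) • N) ^ 2 = X ^ 2 - (z : ℂ) • (X * N) - (z : ℂ) • (N * X) +
        ((z : ℂ) * (z : ℂ)) • N ^ 2 := by
      rw [pow_two, pow_two, pow_two, sub_mul, mul_sub, mul_sub, Matrix.mul_smul, Matrix.smul_mul,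
        Matrix.smul_mul, Matrix.mul_smul, smul_smul]
      abel
    rw [e1, Matrix.trace_add, Matrix.trace_sub, Matrix.trace_sub, Matrix.trace_smul,
      Matrix.trace_smul, Matrix.trace_smul, Matrix.trace_mul_comm N X, ← Complex.ofReal_mul]
    simp only [Complex.add_re, Complex.sub_re, smul_eq_mul, Complex.re_ofReal_mul]
    ring
  rw [e] at h1
  have h2 := le_abs_self ((X ^ 2).trace).re
  have h3 := neg_abs_le ((X * N).trace).re
  have h4 := le_abs_self ((N ^ 2).trace).re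
  rw [← ha] at h2
  rw [← hb] at h3
  rw [← hc] at h4
  have h5 : - (2 * z * ((X * N).trace).re) ≤ 2 * Z * b := by
    have : -(2 * z * ((X * N).trace).re) ≤ 2 * z * b := by nlinarith [hz.1]
    have : 2 * z * b ≤ 2 * Z * b := by nlinarith [hz.2]
    linarith
  have h6 : z ^ 2 * ((N ^ 2).trace).re ≤ Z ^ 2 * c := by
    have h7 : z ^ 2 ≤ Z ^ 2 := pow_le_pow_left₀ hz.1 hz.2 2
    have : z ^ 2 * ((N ^ 2).trace).re ≤ z ^ 2 * c := mul_le_mul_of_nonneg_left h4 (sq_nonneg z)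
    have : z ^ 2 * c ≤ Z ^ 2 * c := mul_le_mul_of_nonneg_right h7 hc0
    linarith
  have h7 : 0 ≤ a + 2 * Z * b + Z ^ 2 * c := by positivity
  apply abs_le_of_sq_le_sq _ (by linarith)
  nlinarith

theorem trF_close {f g : ℝ → ℝ} {Y : Matrix ι ι ℂ} (hY : Y.IsHermitian) {R e : ℝ}
    (hR : ∀ x ∈ spectrum ℝ Y, |x| ≤ R) (h : ∀ x, |x| ≤ R → |f x - g x| ≤ e) :
    |trF f Y - trF g Y| ≤ Fintype.card ι * e := by
  unfold trF
  rw [dif_pos hY, dif_pos hY, ← Finset.sum_sub_distrib]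
  refine (Finset.abs_sum_le_sum_abs _ _).trans ?_
  refine (Finset.sum_le_sum (g := fun _ => e) fun i _ => ?_).trans ?_
  · exact h _ (hR _ (hY.eigenvalues_mem_spectrum_real i))
  · simp

theorem slope_close {f : ℝ[X]} {g : ℝ → ℝ} (hg : Continuous g) {X N : Matrix ι ι ℂ}
    (hX : X.IsHermitian) (hN : N.PosSemidef) {R e : ℝ} (hR : ∀ x ∈ spectrum ℝ X, |x| ≤ R)
    (h : ∀ x, |x| ≤ R → |f.eval x - g x| ≤ e) :
    |((N * aeval X f).trace).re - ((cfc g X * N).trace).re| ≤ e * (N.trace).re := by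
  have hX' : IsSelfAdjoint X := hX
  have e0 : aeval X f = cfc f.eval X := (cfc_polynomial f X hX').symm
  have hf : Continuous fun x => f.eval x := f.continuous
  have key : ∀ s : ℝ, (∀ x, |x| ≤ R → 0 ≤ s * (f.eval x - g x) + e) →
      0 ≤ s * (((N * aeval X f).trace).re - ((cfc g X * N).trace).re) + e * (N.trace).re := by
    intro s hs
    have h1 : (cfc (fun x => s * (f.eval x - g x) + e) X).PosSemidef := by
      rw [← Matrix.nonneg_iff_posSemidef]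
      exact cfc_nonneg fun x hx => hs x (hR x hx)
    have h2 := re_trace_mul_nonneg h1 hN
    have h3 : cfc (fun x => s * (f.eval x - g x) + e) X =
        (s : ℂ) • (cfc f.eval X - cfc g X) + (e : ℂ) • (1 : Matrix ι ι ℂ) := by
      rw [cfc_add (a := X) (fun x => s * (f.eval x - g x)) (fun _ => e)
        (by fun_prop) (by fun_prop), cfc_const_mul s (fun x => f.eval x - g x) X (by fun_prop),
        cfc_sub (fun x => f.eval x) g X (by fun_prop) (by fun_prop), cfc_const e X,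
        Algebra.algebraMap_eq_smul_one]
      congr 1
    rw [h3, add_mul, Matrix.smul_mul, Matrix.smul_mul, one_mul, sub_mul, Matrix.trace_add,
      Matrix.trace_smul, Matrix.trace_smul, Matrix.trace_sub, smul_eq_mul, smul_eq_mul,
      Complex.add_re, Complex.re_ofReal_mul, Complex.re_ofReal_mul, Complex.sub_re] at h2
    rw [e0, Matrix.trace_mul_comm N]
    exact h2
  have k1 := key 1 (fun x hx => by have := (abs_le.1 (h x hx)).1; linarith)
  have k2 := key (-1) (fun x hx => by have := (abs_le.1 (h x hx)).2; linarith)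
  rw [abs_le]
  constructor <;> linarith

/-- the three clauses up to an error `kp * e` -/
theorem tone_eps (P3 : Pos3 ι) (P2 : Pos2 ι) {p : ℝ} (hp : 4 < p) {X N : Matrix ι ι ℂ}
    (hX : X.IsHermitian) (hN : N.PosSemidef) {Z : ℝ} (hZ : 0 ≤ Z) :
    ∃ kp C : ℝ, 0 ≤ kp ∧ 0 ≤ C ∧ ∀ e : ℝ, 0 < e → e ≤ 1 → ∃ c2 c3 : ℝ, 0 ≤ c2 ∧ 0 ≤ c3 ∧
      ∀ z ∈ Set.Icc 0 Z,
        trF (INE.pp p) (X - (z : ℂ) • N) ≤ trF (INE.pp p) X -
          p * ((cfc (gp p) X * N).trace).re * z + c2 * z ^ 2 + kp * e ∧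
        trF (INE.pp p) X - p * ((cfc (gp p) X * N).trace).re * z + c2 * z ^ 2 - c3 * z ^ 3 ≤
          trF (INE.pp p) (X - (z : ℂ) • N) + kp * e ∧
        trF (INE.pp p) (X - (z : ℂ) • N) ≤ trF (INE.pp p) X -
          p * ((cfc (gp p) X * N).trace).re * z + c2 * z ^ 2 - c3 * z ^ 3 + C * z ^ 4 +
          kp * e := by
  obtain ⟨R, hR0, hR⟩ := spec_bound hX hN.isHermitian hZ
  obtain ⟨K, hK, hpoly⟩ := polyTone P3 P2 hX hN
  obtain ⟨M4, hM4, happ⟩ := approx hp hR0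
  have hX0 : X - ((0 : ℝ) : ℂ) • N = X := by simp
  have hRX : ∀ x ∈ spectrum ℝ X, |x| ≤ R := by
    have := hR 0 ⟨le_rfl, hZ⟩
    rwa [hX0] at this
  have htN : 0 ≤ (N.trace).re := (Complex.le_def.1 hN.trace_nonneg).1
  have hn0 : (0 : ℝ) ≤ Fintype.card ι := Nat.cast_nonneg _
  refine ⟨2 * Fintype.card ι + (N.trace).re * Z, K * M4, by positivity, by positivity, ?_⟩
  intro e he he1
  obtain ⟨f, hf⟩ := happ e he he1
  obtain ⟨c2, c3, h2, h3, hc⟩ := hpoly R Z M4 f hZ hR (fun x hx =>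
    ⟨(hf x hx).1, (hf x hx).2.1, (hf x hx).2.2.1, (hf x hx).2.2.2.1⟩)
  refine ⟨c2, c3, h2, h3, ?_⟩
  intro z hz
  have hYz : (X - (z : ℂ) • N).IsHermitian := hX.sub (herm_real_smul hN.isHermitian z)
  have a1 := trF_close (f := fun x => f.eval x) (g := INE.pp p) hYz (hR z hz)
    (fun x hx => (hf x hx).2.2.2.2.1)
  have a0 := trF_close (f := fun x => f.eval x) (g := INE.pp p) hX hRX
    (fun x hx => (hf x hx).2.2.2.2.1)
  rw [TRF.trF_poly f hYz] at a1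
  rw [TRF.trF_poly f hX] at a0
  have hgc : Continuous fun x => p * gp p x := continuous_const.mul (continuous_gp (by linarith))
  have b := slope_close (f := derivative f) (g := fun x => p * gp p x) hgc hX hN hRX
    (fun x hx => (hf x hx).2.2.2.2.2)
  rw [cfc_smul_gp p hX, Matrix.smul_mul, Matrix.trace_smul, smul_eq_mul,
    Complex.re_ofReal_mul] at b
  obtain ⟨t1, t2, t3⟩ := hc z hz
  rw [abs_le] at a0 a1 b
  have bz1 : -(((N * aeval X (derivative f)).trace).re) * z ≤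
      -(p * ((cfc (gp p) X * N).trace).re) * z + (N.trace).re * Z * e := by
    have h1 : (p * ((cfc (gp p) X * N).trace).re -
        ((N * aeval X (derivative f)).trace).re) * z ≤ (e * (N.trace).re) * z :=
      mul_le_mul_of_nonneg_right (by linarith [b.1]) hz.1
    have h2 : (e * (N.trace).re) * z ≤ (e * (N.trace).re) * Z :=
      mul_le_mul_of_nonneg_left hz.2 (by positivity)
    linarith
  have bz2 : -(p * ((cfc (gp p) X * N).trace).re) * z ≤
      -(((N * aeval X (derivative f)).trace).re) * z + (N.trace).re * Z * e := by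
    have h1 : (((N * aeval X (derivative f)).trace).re -
        p * ((cfc (gp p) X * N).trace).re) * z ≤ (e * (N.trace).re) * z :=
      mul_le_mul_of_nonneg_right (by linarith [b.2]) hz.1
    have h2 : (e * (N.trace).re) * z ≤ (e * (N.trace).re) * Z :=
      mul_le_mul_of_nonneg_left hz.2 (by positivity)
    linarith
  refine ⟨by linarith, by linarith, by linarith⟩

/-- the three clauses on `[0, Z]` -/
theorem tone_Z (P3 : Pos3 ι) (P2 : Pos2 ι) {p : ℝ} (hp : 4 < p) {X N : Matrix ι ι ℂ}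
    (hX : X.IsHermitian) (hN : N.PosSemidef) {Z : ℝ} (hZ : 0 < Z) :
    ∃ c2 c3 C : ℝ, 0 ≤ c2 ∧ 0 ≤ c3 ∧ 0 ≤ C ∧ ∀ z ∈ Set.Icc 0 Z,
        trF (INE.pp p) (X - (z : ℂ) • N) ≤ trF (INE.pp p) X -
          p * ((cfc (gp p) X * N).trace).re * z + c2 * z ^ 2 ∧
        trF (INE.pp p) X - p * ((cfc (gp p) X * N).trace).re * z + c2 * z ^ 2 - c3 * z ^ 3 ≤
          trF (INE.pp p) (X - (z : ℂ) • N) ∧
        trF (INE.pp p) (X - (z : ℂ) • N) ≤ trF (INE.pp p) X -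
          p * ((cfc (gp p) X * N).trace).re * z + c2 * z ^ 2 - c3 * z ^ 3 + C * z ^ 4 := by
  obtain ⟨kp, C, hkp, hC, hall⟩ := tone_eps P3 P2 hp hX hN hZ.le
  have he : ∀ n : ℕ, 0 < 1 / ((n : ℝ) + 1) ∧ 1 / ((n : ℝ) + 1) ≤ 1 := by
    intro n
    have h0 : (0 : ℝ) < (n : ℝ) + 1 := by positivity
    refine ⟨by positivity, ?_⟩
    rw [div_le_one h0]
    have : (0 : ℝ) ≤ n := Nat.cast_nonneg n
    linarith
  choose c2 c3 g2 g3 hc using fun n : ℕ => hall (1 / ((n : ℝ) + 1)) (he n).1 (he n).2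
  set φ : ℝ → ℝ := fun z => trF (INE.pp p) (X - (z : ℂ) • N) with hφ
  set T0 : ℝ := trF (INE.pp p) X with hT0
  set T1 : ℝ := p * ((cfc (gp p) X * N).trace).re with hT1
  -- boundedness
  set b : ℝ := |φ Z - T0 + T1 * Z| + |φ (Z / 2) - T0 + T1 * (Z / 2)| + C * Z ^ 4 + kp with hb
  have hkpe : ∀ n : ℕ, kp * (1 / ((n : ℝ) + 1)) ≤ kp := fun n => by
    have := mul_le_mul_of_nonneg_left (he n).2 hkp
    linarith
  have hbd : ∀ n : ℕ, c2 n * Z ^ 2 ≤ 9 * b ∧ c3 n * Z ^ 3 ≤ 10 * b := by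
    intro n
    have m1 : Z ∈ Set.Icc 0 Z := ⟨hZ.le, le_rfl⟩
    have m2 : Z / 2 ∈ Set.Icc 0 Z := ⟨by linarith, by linarith⟩
    obtain ⟨-, p2, p3⟩ := hc n Z m1
    obtain ⟨-, q2, q3⟩ := hc n (Z / 2) m2
    have hk := hkpe n
    have hZ4 : 0 ≤ C * Z ^ 4 := by positivity
    have hZ42 : C * (Z / 2) ^ 4 ≤ C * Z ^ 4 := by
      have : (Z / 2) ^ 4 ≤ Z ^ 4 := pow_le_pow_left₀ (by linarith) (by linarith) 4
      exact mul_le_mul_of_nonneg_left this hC
    have u1 := abs_le.1 (le_refl |φ Z - T0 + T1 * Z|)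
    have u2 := abs_le.1 (le_refl |φ (Z / 2) - T0 + T1 * (Z / 2)|)
    have v1 := abs_nonneg (φ Z - T0 + T1 * Z)
    have v2 := abs_nonneg (φ (Z / 2) - T0 + T1 * (Z / 2))
    have w1 : c2 n * Z ^ 2 - c3 n * Z ^ 3 ≤ b := by
      change T0 - T1 * Z + c2 n * Z ^ 2 - c3 n * Z ^ 3 ≤ φ Z + _ at p2
      linarith [u1.2]
    have w2 : -b ≤ c2 n * Z ^ 2 - c3 n * Z ^ 3 := by
      change φ Z ≤ T0 - T1 * Z + c2 n * Z ^ 2 - c3 n * Z ^ 3 + C * Z ^ 4 + _ at p3
      linarith [u1.1]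
    have w3 : c2 n * (Z / 2) ^ 2 - c3 n * (Z / 2) ^ 3 ≤ b := by
      change T0 - T1 * (Z / 2) + c2 n * (Z / 2) ^ 2 - c3 n * (Z / 2) ^ 3 ≤ φ (Z / 2) + _ at q2
      linarith [u2.2]
    have w4 : -b ≤ c2 n * (Z / 2) ^ 2 - c3 n * (Z / 2) ^ 3 := by
      change φ (Z / 2) ≤ T0 - T1 * (Z / 2) + c2 n * (Z / 2) ^ 2 - c3 n * (Z / 2) ^ 3 +
        C * (Z / 2) ^ 4 + _ at q3
      linarith [u2.1]
    have x3 : c2 n * (Z / 2) ^ 2 - c3 n * (Z / 2) ^ 3 = c2 n * Z ^ 2 / 4 - c3 n * Z ^ 3 / 8 := by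
      ring
    rw [x3] at w3 w4
    constructor <;> linarith
  have hcomp : IsCompact (Set.Icc ((0 : ℝ), (0 : ℝ)) (9 * b / Z ^ 2, 10 * b / Z ^ 3)) :=
    isCompact_Icc
  have hmem : ∀ n : ℕ, (c2 n, c3 n) ∈ Set.Icc ((0 : ℝ), (0 : ℝ)) (9 * b / Z ^ 2, 10 * b / Z ^ 3) := by
    intro n
    refine ⟨⟨g2 n, g3 n⟩, ⟨?_, ?_⟩⟩
    · show c2 n ≤ 9 * b / Z ^ 2
      rw [le_div_iff₀ (by positivity)]
      exact (hbd n).1
    · show c3 n ≤ 10 * b / Z ^ 3
      rw [le_div_iff₀ (by positivity)]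
      exact (hbd n).2
  obtain ⟨a, ha, ψ, hψ, hlim⟩ := hcomp.tendsto_subseq hmem
  have l2 : Filter.Tendsto (fun n => c2 (ψ n)) Filter.atTop (nhds a.1) :=
    (continuous_fst.tendsto a).comp hlim
  have l3 : Filter.Tendsto (fun n => c3 (ψ n)) Filter.atTop (nhds a.2) :=
    (continuous_snd.tendsto a).comp hlim
  have le0 : Filter.Tendsto (fun n : ℕ => kp * (1 / (((ψ n : ℕ) : ℝ) + 1))) Filter.atTop
      (nhds 0) := by
    have h1 := (tendsto_one_div_add_atTop_nhds_zero_nat (𝕜 := ℝ)).comp hψ.tendsto_atTop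
    have h2 := h1.const_mul kp
    rw [mul_zero] at h2
    exact h2
  refine ⟨a.1, a.2, C, ha.1.1, ha.1.2, hC, ?_⟩
  intro z hz
  refine ⟨?_, ?_, ?_⟩
  · have hr : Filter.Tendsto (fun n => T0 - T1 * z + c2 (ψ n) * z ^ 2 +
        kp * (1 / (((ψ n : ℕ) : ℝ) + 1))) Filter.atTop (nhds (T0 - T1 * z + a.1 * z ^ 2 + 0)) :=
      ((tendsto_const_nhds.add (l2.mul_const _))).add le0
    rw [add_zero] at hr
    exact ge_of_tendsto' hr (fun n => (hc (ψ n) z hz).1)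
  · have hr : Filter.Tendsto (fun n => T0 - T1 * z + c2 (ψ n) * z ^ 2 - c3 (ψ n) * z ^ 3)
        Filter.atTop (nhds (T0 - T1 * z + a.1 * z ^ 2 - a.2 * z ^ 3)) :=
      ((tendsto_const_nhds.add (l2.mul_const _))).sub (l3.mul_const _)
    have hs : Filter.Tendsto (fun n => φ z + kp * (1 / (((ψ n : ℕ) : ℝ) + 1)))
        Filter.atTop (nhds (φ z + 0)) := tendsto_const_nhds.add le0
    rw [add_zero] at hs
    exact le_of_tendsto_of_tendsto' hr hs (fun n => (hc (ψ n) z hz).2.1)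
  · have hr : Filter.Tendsto (fun n => T0 - T1 * z + c2 (ψ n) * z ^ 2 - c3 (ψ n) * z ^ 3 +
        C * z ^ 4 + kp * (1 / (((ψ n : ℕ) : ℝ) + 1))) Filter.atTop
        (nhds (T0 - T1 * z + a.1 * z ^ 2 - a.2 * z ^ 3 + C * z ^ 4 + 0)) :=
      ((((tendsto_const_nhds.add (l2.mul_const _))).sub (l3.mul_const _)).add
        tendsto_const_nhds).add le0
    rw [add_zero] at hr
    exact ge_of_tendsto' hr (fun n => (hc (ψ n) z hz).2.2)

theorem uniq {a b C : ℝ} (hC : 0 ≤ C) (h : ∀ x ∈ Set.Ioc (0 : ℝ) 1, |a * x ^ 2 - b * x ^ 3| ≤ C * x ^ 4) :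
    a = 0 ∧ b = 0 := by
  have h1 : ∀ x ∈ Set.Ioc (0 : ℝ) 1, |a - b * x| ≤ C * x ^ 2 := by
    intro x hx
    have h2 := h x hx
    have e : a * x ^ 2 - b * x ^ 3 = (a - b * x) * x ^ 2 := by ring
    rw [e, abs_mul, abs_of_nonneg (sq_nonneg x)] at h2
    have hx2 : 0 < x ^ 2 := by have := hx.1; positivity
    have : |a - b * x| * x ^ 2 ≤ C * x ^ 2 * x ^ 2 := by linarith [h2]
    exact le_of_mul_le_mul_right this hx2
  have ha : a = 0 := by
    by_contra hne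
    have hpos : 0 < |a| := abs_pos.2 hne
    have hden : 0 < |b| + C + 1 := by have := abs_nonneg b; linarith
    set x : ℝ := min 1 (|a| / (2 * (|b| + C + 1))) with hx
    have hx0 : 0 < x := lt_min one_pos (by positivity)
    have hx1 : x ≤ 1 := min_le_left _ _
    have hx2 : x ≤ |a| / (2 * (|b| + C + 1)) := min_le_right _ _
    have h3 := h1 x ⟨hx0, hx1⟩
    have h4 : |a| ≤ |b| * x + C * x := by
      have h5 : |a| ≤ |a - b * x| + |b * x| := by
        have := abs_add_le (a - b * x) (b * x)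
        rwa [sub_add_cancel] at this
      rw [abs_mul, abs_of_pos hx0] at h5
      have h6 : C * x ^ 2 ≤ C * x := by
        apply mul_le_mul_of_nonneg_left _ hC
        nlinarith
      linarith
    have h7 : (|b| + C + 1) * x ≤ |a| / 2 := by
      have := mul_le_mul_of_nonneg_left hx2 hden.le
      have e : (|b| + C + 1) * (|a| / (2 * (|b| + C + 1))) = |a| / 2 := by field_simp
      linarith
    nlinarith
  refine ⟨ha, ?_⟩
  subst ha
  by_contra hne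
  have hpos : 0 < |b| := abs_pos.2 hne
  set x : ℝ := min 1 (|b| / (2 * (C + 1))) with hx
  have hx0 : 0 < x := lt_min one_pos (by positivity)
  have hx1 : x ≤ 1 := min_le_left _ _
  have hx2 : x ≤ |b| / (2 * (C + 1)) := min_le_right _ _
  have h3 := h1 x ⟨hx0, hx1⟩
  rw [zero_sub, abs_neg, abs_mul, abs_of_pos hx0] at h3
  have h4 : |b| ≤ C * x := by
    have : |b| * x ≤ C * x * x := by linarith
    exact le_of_mul_le_mul_right this hx0
  have h7 : (C + 1) * x ≤ |b| / 2 := by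
    have := mul_le_mul_of_nonneg_left hx2 (by linarith : 0 ≤ C + 1)
    have e : (C + 1) * (|b| / (2 * (C + 1))) = |b| / 2 := by field_simp
    linarith
  nlinarith

/-- the three clauses for all `z ≥ 0` -/
theorem tone (P3 : Pos3 ι) (P2 : Pos2 ι) {p : ℝ} (hp : 4 < p) {X N : Matrix ι ι ℂ}
    (hX : X.IsHermitian) (hN : N.PosSemidef) :
    ∃ c2 c3 C : ℝ, 0 ≤ c2 ∧ 0 ≤ c3 ∧ 0 ≤ C ∧ ∀ z : ℝ, 0 ≤ z →
        trF (INE.pp p) (X - (z : ℂ) • N) ≤ trF (INE.pp p) X -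
          p * ((cfc (gp p) X * N).trace).re * z + c2 * z ^ 2 ∧
        trF (INE.pp p) X - p * ((cfc (gp p) X * N).trace).re * z + c2 * z ^ 2 - c3 * z ^ 3 ≤
          trF (INE.pp p) (X - (z : ℂ) • N) ∧
        trF (INE.pp p) (X - (z : ℂ) • N) ≤ trF (INE.pp p) X -
          p * ((cfc (gp p) X * N).trace).re * z + c2 * z ^ 2 - c3 * z ^ 3 + C * z ^ 4 := by
  obtain ⟨c2, c3, C, h2, h3, hC, h⟩ := tone_Z P3 P2 hp hX hN (Z := 1) one_pos
  have key : ∀ z : ℝ, 0 ≤ z →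
      trF (INE.pp p) (X - (z : ℂ) • N) ≤ trF (INE.pp p) X -
          p * ((cfc (gp p) X * N).trace).re * z + c2 * z ^ 2 ∧
        trF (INE.pp p) X - p * ((cfc (gp p) X * N).trace).re * z + c2 * z ^ 2 - c3 * z ^ 3 ≤
          trF (INE.pp p) (X - (z : ℂ) • N) := by
    intro z hz
    obtain ⟨d2, d3, D, k2, k3, hD, k⟩ := tone_Z P3 P2 hp hX hN (Z := max 1 z)
      (lt_max_of_lt_left one_pos)
    have hu := uniq (a := c2 - d2) (b := c3 - d3) (C := C + D) (by linarith) (by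
      intro x hx
      obtain ⟨-, a2, a3⟩ := h x ⟨hx.1.le, hx.2⟩
      obtain ⟨-, b2, b3⟩ := k x ⟨hx.1.le, hx.2.trans (le_max_left _ _)⟩
      have hx4 : 0 ≤ x ^ 4 := by positivity
      have hC4 : 0 ≤ C * x ^ 4 := mul_nonneg hC hx4
      have hD4 : 0 ≤ D * x ^ 4 := mul_nonneg hD hx4
      rw [abs_le]
      constructor <;> linarith)
    have e2 : d2 = c2 := by linarith [hu.1]
    have e3 : d3 = c3 := by linarith [hu.2]
    obtain ⟨b1, b2, -⟩ := k z ⟨hz, le_max_right _ _⟩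
    rw [e2] at b1 b2
    rw [e3] at b2
    exact ⟨b1, b2⟩
  refine ⟨c2, c3, max C c3, h2, h3, le_max_of_le_left hC, ?_⟩
  intro z hz
  refine ⟨(key z hz).1, (key z hz).2, ?_⟩
  rcases le_or_gt z 1 with h1 | h1
  · have := (h z ⟨hz, h1⟩).2.2
    have h4 : C * z ^ 4 ≤ max C c3 * z ^ 4 :=
      mul_le_mul_of_nonneg_right (le_max_left _ _) (by positivity)
    linarith
  · have := (key z hz).1
    have h4 : c3 * z ^ 3 ≤ max C c3 * z ^ 4 := by
      have h5 : z ^ 3 ≤ z ^ 4 := pow_le_pow_right₀ h1.le (by norm_num)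
      have h6 : c3 * z ^ 3 ≤ c3 * z ^ 4 := mul_le_mul_of_nonneg_left h5 h3
      have h7 : c3 * z ^ 4 ≤ max C c3 * z ^ 4 :=
        mul_le_mul_of_nonneg_right (le_max_right _ _) (by positivity)
      linarith
    linarith

/-- BLOCK TONE -/
theorem tau_tone_of (P3 : Pos3 ι) (P2 : Pos2 ι) {p : ℝ} (hp : 4 < p) {A D : Matrix ι ι ℂ}
    (h1 : (A - D).PosSemidef) (h2 : (A + D).PosSemidef) (hD : D.IsHermitian) :
    ∃ c2 c3 C : ℝ, 0 ≤ c2 ∧ 0 ≤ c3 ∧ 0 ≤ C ∧ ∀ z : ℝ, 0 ≤ z →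
        tau p A D z ≤ tau p A D 0 - eta p A D 0 * z + c2 * z ^ 2 ∧
        tau p A D 0 - eta p A D 0 * z + c2 * z ^ 2 - c3 * z ^ 3 ≤ tau p A D z ∧
        tau p A D z ≤ tau p A D 0 - eta p A D 0 * z + c2 * z ^ 2 - c3 * z ^ 3 + C * z ^ 4 := by
  obtain ⟨a2, a3, a, ha2, ha3, ha, hA⟩ := tone P3 P2 hp (X := D) (N := A - D) hD h1
  obtain ⟨b2, b3, b, hb2, hb3, hb, hB⟩ := tone P3 P2 hp (X := -D) (N := A + D) hD.neg h2
  have e0 : tau p A D 0 = trF (INE.pp p) D + trF (INE.pp p) (-D) := by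
    simp [tau]
  have e1 : eta p A D 0 = p * ((cfc (gp p) D * (A - D)).trace).re +
      p * ((cfc (gp p) (-D) * (A + D)).trace).re := by
    simp [Pool.Agent.RC.eta]
    ring
  refine ⟨a2 + b2, a3 + b3, a + b, by linarith, by linarith, by linarith, ?_⟩
  intro z hz
  obtain ⟨x1, x2, x3⟩ := hA z hz
  obtain ⟨y1, y2, y3⟩ := hB z hz
  have ez : tau p A D z = trF (INE.pp p) (D - (z : ℂ) • (A - D)) +
      trF (INE.pp p) (-D - (z : ℂ) • (A + D)) := rfl
  rw [e0, e1, ez]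
  refine ⟨by linarith, by linarith, by linarith⟩

end Pool.Agent.Lib_helper30.TN
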