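import Pool.Agent.Lib_helper30.TN.Four
import Pool.Agent.Lib_helper88.QB.SC

/-!
# The upper bound of `G` by the second moment, `p > 4` (abstract form)
-/

open Matrix Pool.Agent.RC
open scoped ComplexOrder MatrixOrder

namespace Pool.Agent.Lib_helper30.TN

variable {ι : Type} [Fintype ι] [DecidableEq ι]

/-- `((1+v)^p + (1-v)^p)/2 ≥ 1 + p (p-1)/2 v²` -/
theorem cc_ge {p : ℝ} (hp : 4 < p) {v : ℝ} (h0 : 0 ≤ v) (h1 : v ≤ 1) :
    p * (p - 1) / 2 * v ^ 2 ≤ Pool.Agent.QB.cc p v - 1 := by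
  have q1 : ∀ t ∈ Set.Icc (0 : ℝ) 1, p * (p - 1) * t ≤
      p / 2 * ((1 + t) ^ (p - 1) - (1 - t) ^ (p - 1)) := by
    refine cmp (a' := fun _ => p * (p - 1))
      (b' := fun t => p / 2 * ((p - 1) * (1 + t) ^ (p - 1 - 1) + (p - 1) * (1 - t) ^ (p - 1 - 1)))
      ?_ ?_ ?_ ?_
    · intro t
      simpa using (hasDerivAt_id t).const_mul (p * (p - 1))
    · intro t
      have e1 : HasDerivAt (fun v : ℝ => (1 + v) ^ (p - 1))
          (1 * (p - 1) * (1 + t) ^ (p - 1 - 1)) t :=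
        ((hasDerivAt_id t).const_add 1).rpow_const (Or.inr (by linarith))
      have e2 : HasDerivAt (fun v : ℝ => (1 - v) ^ (p - 1))
          (-1 * (p - 1) * (1 - t) ^ (p - 1 - 1)) t :=
        ((hasDerivAt_id t).const_sub 1).rpow_const (Or.inr (by linarith))
      refine ((e1.sub e2).const_mul (p / 2)).congr_deriv ?_
      ring
    · simp
    · intro s hs
      have b1 := one_add_mul_self_le_rpow_one_add (s := s) (by linarith [hs.1])
        (p := p - 1 - 1) (by linarith)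
      have b2 := one_add_mul_self_le_rpow_one_add (s := -s) (by linarith [hs.2])
        (p := p - 1 - 1) (by linarith)
      rw [← sub_eq_add_neg] at b2
      have b3 : 0 ≤ p / 2 * (p - 1) := by
        have : 0 < p - 1 := by linarith
        positivity
      have b4 : 2 ≤ (1 + s) ^ (p - 1 - 1) + (1 - s) ^ (p - 1 - 1) := by linarith
      have b5 := mul_le_mul_of_nonneg_left b4 b3
      linarith
  have q0 : ∀ t ∈ Set.Icc (0 : ℝ) 1, 1 + p * (p - 1) / 2 * t ^ 2 ≤ Pool.Agent.QB.cc p t := by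
    refine cmp (a' := fun t => p * (p - 1) * t)
      (b' := fun t => p / 2 * ((1 + t) ^ (p - 1) - (1 - t) ^ (p - 1))) ?_ ?_ ?_ q1
    · intro t
      have e := ((hasDerivAt_pow 2 t).const_mul (p * (p - 1) / 2)).const_add 1
      refine e.congr_deriv ?_
      simp
      ring
    · intro t
      exact Pool.Agent.QB.cc_hasDeriv p t (by linarith)
    · simp [Pool.Agent.QB.cc]
  have := q0 v ⟨h0, h1⟩
  linarith

/-- BLOCK B: `G ≤ κ m_1` -/
theorem blockB {p : ℝ} (hp : 4 < p) {a : ι → ℝ} (ha : ∀ i, 0 < a i) {D : Matrix ι ι ℂ}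
    (h : IsPair (dg a) D)
    (hcq : ∀ v : ℝ, 0 ≤ v → v ≤ 1 → (Pool.Agent.QB.cc p v - 1) * G p (dg a) D ≤
      (2 ^ (p - 1) - 1) * G p (dg a) ((v : ℂ) • D)) :
    G p (dg a) D ≤ (2 ^ (p - 1) - 1) * ∑ i, ∑ j, ‖D i j‖ ^ 2 * hk p (a i) (a j) := by
  obtain ⟨f1, f2⟩ := fourA hp ha h
  set m : ℝ := ∑ i, ∑ j, ‖D i j‖ ^ 2 * hk p (a i) (a j) with hm
  set N : ℝ := p * (p - 1) / 2 with hN
  set g : ℝ := G p (dg a) D with hg
  have hN0 : 0 < N := by
    have : 0 < p - 1 := by linarith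
    positivity
  have hm0 : 0 ≤ m := by
    refine Finset.sum_nonneg fun i _ => Finset.sum_nonneg fun j _ => mul_nonneg (sq_nonneg _) ?_
    unfold hk
    apply intervalIntegral.integral_nonneg zero_le_one
    intro t ht
    apply Real.rpow_nonneg
    have := mul_nonneg ht.1 (ha i).le
    have := mul_nonneg (sub_nonneg.2 ht.2) (ha j).le
    linarith
  have hg0 : 0 ≤ g := by
    have := mul_nonneg hN0.le hm0
    linarith
  have hκ : (1 : ℝ) < 2 ^ (p - 1) := Real.one_lt_rpow (by norm_num) (by linarith)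
  set κ : ℝ := 2 ^ (p - 1) - 1 with hκd
  have hκ0 : 0 < κ := by linarith
  have key : ∀ v : ℝ, 0 < v → v ≤ 1 → N * g ≤ N * (κ * m) + (κ * (g - N * m)) * v := by
    intro v hv hv1
    have h1 := hcq v hv.le hv1
    have h2 := f2 v ⟨hv.le, hv1⟩
    have h3 := cc_ge hp hv.le hv1
    rw [← hN] at h3
    have h4 := mul_le_mul_of_nonneg_right h3 hg0
    have h5 : κ * G p (dg a) ((v : ℂ) • D) ≤ κ * (N * v ^ 2 * m + v ^ 3 * (g - N * m)) := by
      apply mul_le_mul_of_nonneg_left _ hκ0.le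
      linarith
    have h6 : v ^ 2 * (N * g) ≤ v ^ 2 * (N * (κ * m) + (κ * (g - N * m)) * v) := by
      calc v ^ 2 * (N * g) = N * v ^ 2 * g := by ring
        _ ≤ κ * (N * v ^ 2 * m + v ^ 3 * (g - N * m)) := by linarith
        _ = _ := by ring
    exact le_of_mul_le_mul_left h6 (by positivity)
  have h7 : N * g ≤ N * (κ * m) := lim_le (K := κ * (g - N * m)) key
  exact le_of_mul_le_mul_left h7 hN0

/-- BLOCK C -/
theorem blockC {p : ℝ} (hp : 4 < p) {a : ι → ℝ} (ha : ∀ i, 0 < a i) {D : Matrix ι ι ℂ} {c : ℝ}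
    (h0 : 0 ≤ c) (h1 : c ≤ 1) (hs : ((c : ℂ) • dg a - D).PosSemidef)
    (hq : ((c : ℂ) • dg a + D).PosSemidef)
    (hcq : ∀ E : Matrix ι ι ℂ, IsPair (dg a) E → ∀ v : ℝ, 0 ≤ v → v ≤ 1 →
      (Pool.Agent.QB.cc p v - 1) * G p (dg a) E ≤
      (2 ^ (p - 1) - 1) * G p (dg a) ((v : ℂ) • E)) :
    G p (dg a) D ≤ (p * (p - 1) / 2 + c * ((2 ^ (p - 1) - 1) - p * (p - 1) / 2)) *
      ∑ i, ∑ j, ‖D i j‖ ^ 2 * hk p (a i) (a j) := by
  rcases h0.eq_or_lt with h | h
  · subst h
    have e1 : ((0 : ℝ) : ℂ) • dg a - D = -D := by simp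
    have e2 : ((0 : ℝ) : ℂ) • dg a + D = D := by simp
    rw [e1] at hs
    rw [e2] at hq
    have hD : D = 0 := by
      have k1 : (0 : Matrix ι ι ℂ) ≤ D := by
        rw [Matrix.le_iff]
        simpa using hq
      have k2 : D ≤ (0 : Matrix ι ι ℂ) := by
        rw [Matrix.le_iff]
        simpa using hs
      exact le_antisymm k2 k1
    subst hD
    simp [G]
  · have hA : (dg a).PosDef := by
      unfold dg
      rw [Matrix.posDef_diagonal_iff]
      intro i
      exact_mod_cast ha i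
    set E : Matrix ι ι ℂ := ((c⁻¹ : ℝ) : ℂ) • D with hE
    have hc : (c : ℂ) ≠ 0 := by exact_mod_cast h.ne'
    have hDE : D = (c : ℂ) • E := by
      rw [hE, smul_smul]
      push_cast
      rw [mul_inv_cancel₀ hc, one_smul]
    have hp1 : IsPair (dg a) E := by
      refine ⟨hA, ?_, ?_⟩
      · have e : dg a - E = (c⁻¹ : ℝ) • ((c : ℂ) • dg a - D) := by
          rw [hE]
          ext i j
          simp only [Matrix.sub_apply, Matrix.smul_apply, smul_eq_mul, Complex.real_smul]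
          push_cast
          field_simp
        rw [e]
        exact hs.smul (by positivity)
      · have e : dg a + E = (c⁻¹ : ℝ) • ((c : ℂ) • dg a + D) := by
          rw [hE]
          ext i j
          simp only [Matrix.add_apply, Matrix.smul_apply, smul_eq_mul, Complex.real_smul]
          push_cast
          field_simp
        rw [e]
        exact hq.smul (by positivity)
    obtain ⟨f1, f2⟩ := fourA hp ha hp1
    have hB := blockB hp ha hp1 (hcq E hp1)
    have f3 := f2 c ⟨h0, h1⟩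
    have hm : ∑ i, ∑ j, ‖D i j‖ ^ 2 * hk p (a i) (a j) =
        c ^ 2 * ∑ i, ∑ j, ‖E i j‖ ^ 2 * hk p (a i) (a j) := by
      rw [Finset.mul_sum]
      apply Finset.sum_congr rfl
      intro i _
      rw [Finset.mul_sum]
      apply Finset.sum_congr rfl
      intro j _
      rw [hDE, Matrix.smul_apply, smul_eq_mul, norm_mul, Complex.norm_real, Real.norm_eq_abs,
        abs_of_nonneg h0]
      ring
    rw [hm]
    conv_lhs => rw [hDE]
    set m : ℝ := ∑ i, ∑ j, ‖E i j‖ ^ 2 * hk p (a i) (a j)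
    have hc3 : 0 ≤ c ^ 3 := by positivity
    have h6 := mul_le_mul_of_nonneg_left hB hc3
    nlinarith

end Pool.Agent.Lib_helper30.TN
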