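import Pool.Agent.Lib_helper30.TN.Noise
import Pool.Agent.Lib_helper19.QS.Core

/-!
# The upper bound of `G` by the second moment, `p > 4`
-/

open Matrix Pool.Agent.RC
open scoped ComplexOrder MatrixOrder

namespace Pool.Agent.Lib_helper30.TN

variable {ι : Type} [Fintype ι] [DecidableEq ι]

/-- BLOCKS B and C: `G (A, D) ≤ (N + c (κ - N)) m_1` for `|D| ≤ c A`, `N = p (p-1) / 2`,
`κ = 2^(p-1) - 1`, `p > 4` -/
theorem noiseC {p : ℝ} (hp : 4 < p) {a : ι → ℝ} (ha : ∀ i, 0 < a i) {D : Matrix ι ι ℂ} {c : ℝ}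
    (h0 : 0 ≤ c) (h1 : c ≤ 1) (hs : ((c : ℂ) • dg a - D).PosSemidef)
    (hq : ((c : ℂ) • dg a + D).PosSemidef) :
    G p (dg a) D ≤ (p * (p - 1) / 2 + c * ((2 ^ (p - 1) - 1) - p * (p - 1) / 2)) *
      ∑ i, ∑ j, ‖D i j‖ ^ 2 * hk p (a i) (a j) :=
  blockC hp ha h0 h1 hs hq fun E hE v hv hv1 =>
    Pool.Agent.Lib_helper19.QS.cqStmt Pool.Agent.Lib_helper19.QS.mpg p (by linarith) ι (dg a) E
      ⟨hE.pos.posSemidef, hE.sub, hE.add⟩ v hv hv1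

end Pool.Agent.Lib_helper30.TN
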