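import Pool.Agent.Lib_helper30.TN.Words
import Pool.Agent.Lib_helper42.T56.Dd

/-!
# The Taylor coefficients of `s ↦ Tr f (Y + s N)` for a polynomial `f`
-/

open Polynomial Matrix Pool.Agent.Lib_helper42.T56

namespace Pool.Agent.Lib_helper30.TN

variable {ι : Type} [Fintype ι] [DecidableEq ι]

/-- the coefficient of `s ^ k` in `Tr f (Y + s N)` -/
noncomputable def CC (f : ℝ[X]) (Y N : Matrix ι ι ℂ) (k : ℕ) : ℝ :=
  f.sum fun m a => a * ((W Y N m k).trace).re

/-- the coefficient of `s ^ k` in `Tr N g (Y + s N)` -/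
noncomputable def DD (g : ℝ[X]) (Y N : Matrix ι ι ℂ) (k : ℕ) : ℝ :=
  g.sum fun m a => a * ((N * W Y N m k).trace).re

theorem CC_zero (f : ℝ[X]) (Y N : Matrix ι ι ℂ) : CC f Y N 0 = ((aeval Y f).trace).re := by
  rw [CC, Polynomial.aeval_def, Polynomial.eval₂_eq_sum, Polynomial.sum_def, Polynomial.sum_def,
    Matrix.trace_sum, Complex.re_sum]
  apply Finset.sum_congr rfl
  intro m _
  rw [W_zero, ← Algebra.smul_def, Matrix.trace_smul, Complex.real_smul, Complex.re_ofReal_mul]

theorem DD_zero (g : ℝ[X]) (Y N : Matrix ι ι ℂ) : DD g Y N 0 = ((N * aeval Y g).trace).re := by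
  rw [DD, Polynomial.aeval_def, Polynomial.eval₂_eq_sum, Polynomial.sum_def, Polynomial.sum_def,
    Finset.mul_sum, Matrix.trace_sum, Complex.re_sum]
  apply Finset.sum_congr rfl
  intro m _
  rw [W_zero, ← Algebra.smul_def, Matrix.mul_smul, Matrix.trace_smul, Complex.real_smul,
    Complex.re_ofReal_mul]

theorem hasDerivAt_CC (f : ℝ[X]) (X N : Matrix ι ι ℂ) (k : ℕ) (t : ℝ) :
    HasDerivAt (fun s : ℝ => CC f (X + (s : ℂ) • N) N k)
      (((k : ℝ) + 1) * CC f (X + (t : ℂ) • N) N (k + 1)) t := by
  have h := HasDerivAt.fun_sum (u := f.support) (fun m _ =>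
    ((Complex.reCLM.hasFDerivAt.comp_hasDerivAt t (hasDerivAt_trace X N m k t)).const_mul
      (f.coeff m)))
  have e : ((k : ℝ) + 1) * CC f (X + (t : ℂ) • N) N (k + 1) =
      ∑ m ∈ f.support, f.coeff m * Complex.reCLM (((k : ℂ) + 1) *
        (W (X + (t : ℂ) • N) N m (k + 1)).trace) := by
    rw [CC, Polynomial.sum_def, Finset.mul_sum]
    apply Finset.sum_congr rfl
    intro m _
    have : ((k : ℂ) + 1) = (((k : ℝ) + 1 : ℝ) : ℂ) := by push_cast; ring
    rw [this, Complex.reCLM_apply, Complex.re_ofReal_mul]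
    ring
  rw [e]
  exact h

theorem CC_add (f g : ℝ[X]) (Y N : Matrix ι ι ℂ) (k : ℕ) :
    CC (f + g) Y N k = CC f Y N k + CC g Y N k := by
  unfold CC
  exact Polynomial.sum_add_index f g _ (fun i => by simp) (fun n a b => by ring)

theorem DD_add (f g : ℝ[X]) (Y N : Matrix ι ι ℂ) (k : ℕ) :
    DD (f + g) Y N k = DD f Y N k + DD g Y N k := by
  unfold DD
  exact Polynomial.sum_add_index f g _ (fun i => by simp) (fun n a b => by ring)

theorem CC_succ (f : ℝ[X]) (Y N : Matrix ι ι ℂ) (k : ℕ) :
    ((k : ℝ) + 1) * CC f Y N (k + 1) = DD (derivative f) Y N k := by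
  induction f using Polynomial.induction_on' with
  | add p q hp hq => rw [CC_add, derivative_add, DD_add, mul_add, hp, hq]
  | monomial n a =>
    rw [derivative_monomial]
    unfold CC DD
    rw [Polynomial.sum_monomial_index a _ (by simp), Polynomial.sum_monomial_index _ _ (by simp)]
    cases n with
    | zero =>
      have : W Y N 0 (k + 1) = 0 := rfl
      rw [this]
      simp
    | succ n =>
      have h := congrArg Complex.re (trace_W_succ Y N n k)
      have e1 : ((k : ℂ) + 1) = (((k : ℝ) + 1 : ℝ) : ℂ) := by push_cast; ring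
      have e2 : ((n : ℂ) + 1) = (((n : ℝ) + 1 : ℝ) : ℂ) := by push_cast; ring
      rw [e1, e2, Complex.re_ofReal_mul, Complex.re_ofReal_mul] at h
      have e3 : n + 1 - 1 = n := rfl
      rw [e3]
      push_cast
      linear_combination a * h

theorem DD_conj {U V : Matrix ι ι ℂ} (hVU : V * U = 1) (hUV : U * V = 1) (g : ℝ[X])
    (Y N : Matrix ι ι ℂ) (k : ℕ) : DD g (U * Y * V) (U * N * V) k = DD g Y N k := by
  unfold DD
  rw [Polynomial.sum_def, Polynomial.sum_def]
  apply Finset.sum_congr rfl
  intro m _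
  have h := W_conj hVU Y N m k
  rw [hUV, one_mul] at h
  rw [← h]
  have e : U * N * V * (U * W Y N m k * V) = U * (N * W Y N m k) * V := by
    calc U * N * V * (U * W Y N m k * V) = U * N * (V * U) * W Y N m k * V := by noncomm_ring
      _ = _ := by rw [hVU]; noncomm_ring
  rw [e, Matrix.trace_mul_comm, ← mul_assoc, hVU, one_mul]

/-! ## Diagonal `Y` -/

theorem W_diag1 (y : ι → ℝ) (N : Matrix ι ι ℂ) (m : ℕ) (i j : ι) :
    W (Matrix.diagonal fun i => (y i : ℂ)) N m 1 i j = N i j * ((h1 m (y i) (y j) : ℝ) : ℂ) := by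
  induction m with
  | zero =>
    have : W (Matrix.diagonal fun i => (y i : ℂ)) N 0 1 = 0 := rfl
    rw [this]
    simp [h1]
  | succ m ih =>
    change ((Matrix.diagonal fun i => (y i : ℂ)) * W (Matrix.diagonal fun i => (y i : ℂ)) N m 1 +
      N * W (Matrix.diagonal fun i => (y i : ℂ)) N m 0) i j = _
    rw [Matrix.add_apply, Matrix.diagonal_mul, ih, W_zero, Matrix.diagonal_pow,
      Matrix.mul_diagonal, h1]
    simp only [Pi.pow_apply]
    push_cast
    ring

theorem W_diag2 (y : ι → ℝ) (N : Matrix ι ι ℂ) (m : ℕ) (i j : ι) :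
    W (Matrix.diagonal fun i => (y i : ℂ)) N m 2 i j =
      ∑ k, N i k * N k j * ((h2 m (y i) (y k) (y j) : ℝ) : ℂ) := by
  induction m with
  | zero =>
    have : W (Matrix.diagonal fun i => (y i : ℂ)) N 0 2 = 0 := rfl
    rw [this]
    simp [h2]
  | succ m ih =>
    change ((Matrix.diagonal fun i => (y i : ℂ)) * W (Matrix.diagonal fun i => (y i : ℂ)) N m 2 +
      N * W (Matrix.diagonal fun i => (y i : ℂ)) N m 1) i j = _
    rw [Matrix.add_apply, Matrix.diagonal_mul, ih, Matrix.mul_apply, Finset.mul_sum,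
      ← Finset.sum_add_distrib]
    apply Finset.sum_congr rfl
    intro k _
    rw [W_diag1, h2]
    push_cast
    ring

theorem W_diag3 (y : ι → ℝ) (N : Matrix ι ι ℂ) (m : ℕ) (i j : ι) :
    W (Matrix.diagonal fun i => (y i : ℂ)) N m 3 i j =
      ∑ k, ∑ l, N i k * N k l * N l j * ((h3 m (y i) (y k) (y l) (y j) : ℝ) : ℂ) := by
  induction m with
  | zero =>
    have : W (Matrix.diagonal fun i => (y i : ℂ)) N 0 3 = 0 := rfl
    rw [this]
    simp [h3]
  | succ m ih =>
    change ((Matrix.diagonal fun i => (y i : ℂ)) * W (Matrix.diagonal fun i => (y i : ℂ)) N m 3 +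
      N * W (Matrix.diagonal fun i => (y i : ℂ)) N m 2) i j = _
    rw [Matrix.add_apply, Matrix.diagonal_mul, ih, Matrix.mul_apply, Finset.mul_sum,
      ← Finset.sum_add_distrib]
    apply Finset.sum_congr rfl
    intro k _
    rw [W_diag2, Finset.mul_sum, Finset.mul_sum, ← Finset.sum_add_distrib]
    apply Finset.sum_congr rfl
    intro l _
    rw [h3]
    push_cast
    ring

theorem dd1_add (f g : ℝ[X]) (a b : ℝ) : dd1 (f + g) a b = dd1 f a b + dd1 g a b := by
  unfold dd1
  exact Polynomial.sum_add_index f g _ (fun i => by simp) (fun n a b => by ring)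

theorem dd2_add (f g : ℝ[X]) (a b c : ℝ) : dd2 (f + g) a b c = dd2 f a b c + dd2 g a b c := by
  unfold dd2
  exact Polynomial.sum_add_index f g _ (fun i => by simp) (fun n a b => by ring)

theorem dd3_add (f g : ℝ[X]) (a b c d : ℝ) :
    dd3 (f + g) a b c d = dd3 f a b c d + dd3 g a b c d := by
  unfold dd3
  exact Polynomial.sum_add_index f g _ (fun i => by simp) (fun n a b => by ring)

theorem DD_diag1 (g : ℝ[X]) (y : ι → ℝ) (N : Matrix ι ι ℂ) :
    DD g (Matrix.diagonal fun i => (y i : ℂ)) N 1 =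
      (∑ i, ∑ j, N i j * N j i * ((dd1 g (y i) (y j) : ℝ) : ℂ)).re := by
  induction g using Polynomial.induction_on' with
  | add p q hp hq =>
    rw [DD_add, hp, hq, ← Complex.add_re, ← Finset.sum_add_distrib]
    congr 1
    apply Finset.sum_congr rfl
    intro i _
    rw [← Finset.sum_add_distrib]
    apply Finset.sum_congr rfl
    intro j _
    rw [dd1_add]
    push_cast
    ring
  | monomial n a =>
    have e : ∀ b c, dd1 (monomial n a) b c = a * h1 n b c := fun b c =>
      Polynomial.sum_monomial_index a _ (by simp)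
    have e2 : DD (monomial n a) (Matrix.diagonal fun i => (y i : ℂ)) N 1 =
        a * ((N * W (Matrix.diagonal fun i => (y i : ℂ)) N n 1).trace).re :=
      Polynomial.sum_monomial_index a _ (by simp)
    rw [e2, ← Complex.re_ofReal_mul, Matrix.trace, Finset.mul_sum, Finset.sum_comm]
    congr 1
    apply Finset.sum_congr rfl
    intro j _
    rw [Matrix.diag_apply, Matrix.mul_apply, Finset.mul_sum]
    apply Finset.sum_congr rfl
    intro i _
    rw [W_diag1, e]
    push_cast
    ring

theorem DD_diag2 (g : ℝ[X]) (y : ι → ℝ) (N : Matrix ι ι ℂ) :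
    DD g (Matrix.diagonal fun i => (y i : ℂ)) N 2 =
      (∑ i, ∑ j, ∑ k, N i j * N j k * N k i * ((dd2 g (y i) (y j) (y k) : ℝ) : ℂ)).re := by
  induction g using Polynomial.induction_on' with
  | add p q hp hq =>
    rw [DD_add, hp, hq, ← Complex.add_re, ← Finset.sum_add_distrib]
    congr 1
    apply Finset.sum_congr rfl
    intro i _
    rw [← Finset.sum_add_distrib]
    apply Finset.sum_congr rfl
    intro j _
    rw [← Finset.sum_add_distrib]
    apply Finset.sum_congr rfl
    intro k _
    rw [dd2_add]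
    push_cast
    ring
  | monomial n a =>
    have e : ∀ b c d, dd2 (monomial n a) b c d = a * h2 n b c d := fun b c d =>
      Polynomial.sum_monomial_index a _ (by simp)
    have e2 : DD (monomial n a) (Matrix.diagonal fun i => (y i : ℂ)) N 2 =
        a * ((N * W (Matrix.diagonal fun i => (y i : ℂ)) N n 2).trace).re :=
      Polynomial.sum_monomial_index a _ (by simp)
    -- `Tr (N W) = ∑ k i, N k i * W i k`
    have e3 : ((a : ℝ) : ℂ) * (N * W (Matrix.diagonal fun i => (y i : ℂ)) N n 2).trace =
        ∑ k, ∑ i, ∑ j, N i j * N j k * N k i * ((a * h2 n (y i) (y j) (y k) : ℝ) : ℂ) := by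
      rw [Matrix.trace, Finset.mul_sum]
      apply Finset.sum_congr rfl
      intro k _
      rw [Matrix.diag_apply, Matrix.mul_apply, Finset.mul_sum]
      apply Finset.sum_congr rfl
      intro i _
      rw [W_diag2, Finset.mul_sum, Finset.mul_sum]
      apply Finset.sum_congr rfl
      intro j _
      push_cast
      ring
    rw [e2, ← Complex.re_ofReal_mul, e3]
    simp_rw [e]
    congr 1
    rw [Finset.sum_comm]
    apply Finset.sum_congr rfl
    intro i _
    rw [Finset.sum_comm]

theorem DD_diag3 (g : ℝ[X]) (y : ι → ℝ) (N : Matrix ι ι ℂ) :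
    DD g (Matrix.diagonal fun i => (y i : ℂ)) N 3 =
      (∑ i, ∑ j, ∑ k, ∑ l, N i j * N j k * N k l * N l i *
        ((dd3 g (y i) (y j) (y k) (y l) : ℝ) : ℂ)).re := by
  induction g using Polynomial.induction_on' with
  | add p q hp hq =>
    rw [DD_add, hp, hq, ← Complex.add_re, ← Finset.sum_add_distrib]
    congr 1
    apply Finset.sum_congr rfl
    intro i _
    rw [← Finset.sum_add_distrib]
    apply Finset.sum_congr rfl
    intro j _
    rw [← Finset.sum_add_distrib]
    apply Finset.sum_congr rfl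
    intro k _
    rw [← Finset.sum_add_distrib]
    apply Finset.sum_congr rfl
    intro l _
    rw [dd3_add]
    push_cast
    ring
  | monomial n a =>
    have e : ∀ b c d d', dd3 (monomial n a) b c d d' = a * h3 n b c d d' := fun b c d d' =>
      Polynomial.sum_monomial_index a _ (by simp)
    have e2 : DD (monomial n a) (Matrix.diagonal fun i => (y i : ℂ)) N 3 =
        a * ((N * W (Matrix.diagonal fun i => (y i : ℂ)) N n 3).trace).re :=
      Polynomial.sum_monomial_index a _ (by simp)
    have e3 : ((a : ℝ) : ℂ) * (N * W (Matrix.diagonal fun i => (y i : ℂ)) N n 3).trace =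
        ∑ l, ∑ i, ∑ j, ∑ k, N i j * N j k * N k l * N l i *
          ((a * h3 n (y i) (y j) (y k) (y l) : ℝ) : ℂ) := by
      rw [Matrix.trace, Finset.mul_sum]
      apply Finset.sum_congr rfl
      intro l _
      rw [Matrix.diag_apply, Matrix.mul_apply, Finset.mul_sum]
      apply Finset.sum_congr rfl
      intro i _
      rw [W_diag3, Finset.mul_sum, Finset.mul_sum]
      apply Finset.sum_congr rfl
      intro j _
      rw [Finset.mul_sum, Finset.mul_sum]
      apply Finset.sum_congr rfl
      intro k _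
      push_cast
      ring
    rw [e2, ← Complex.re_ofReal_mul, e3]
    simp_rw [e]
    congr 1
    rw [Finset.sum_comm]
    apply Finset.sum_congr rfl
    intro i _
    rw [Finset.sum_comm]
    apply Finset.sum_congr rfl
    intro j _
    rw [Finset.sum_comm]

end Pool.Agent.Lib_helper30.TN
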