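import Pool.Agent.Lib_helper30.TN.Poly
import Pool.Agent.Lib_helper92.RC.Trf
import Pool.Agent.Lib_helper47.MOD.Defs

/-!
# Three- and four-tone Taylor inequalities for polynomials
-/

open Polynomial Matrix Pool.Agent.Lib_helper42.T56
open scoped ComplexOrder MatrixOrder

namespace Pool.Agent.Lib_helper30.TN

variable {ι : Type} [Fintype ι] [DecidableEq ι]

/-! ## One real variable -/

theorem cmp {a b a' b' : ℝ → ℝ} {Z : ℝ} (ha : ∀ t, HasDerivAt a (a' t) t)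
    (hb : ∀ t, HasDerivAt b (b' t) t) (h0 : a 0 ≤ b 0) (h : ∀ s ∈ Set.Icc 0 Z, a' s ≤ b' s) :
    ∀ z ∈ Set.Icc 0 Z, a z ≤ b z := by
  intro z hz
  have hd : ∀ t, HasDerivAt (fun t => b t - a t) (b' t - a' t) t := fun t => (hb t).sub (ha t)
  have hm : MonotoneOn (fun t => b t - a t) (Set.Icc 0 Z) := by
    apply monotoneOn_of_deriv_nonneg (convex_Icc 0 Z)
    · intro t _
      exact (hd t).continuousAt.continuousWithinAt
    · intro t _
      exact (hd t).differentiableAt.differentiableWithinAt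
    · intro t ht
      rw [(hd t).deriv]
      rw [interior_Icc] at ht
      exact sub_nonneg.2 (h t ⟨ht.1.le, ht.2.le⟩)
  have h1 := hm ⟨le_rfl, hz.1.trans hz.2⟩ hz hz.1
  simp only at h1
  linarith

theorem taylor4 {u : ℕ → ℝ → ℝ} (hd : ∀ k t, HasDerivAt (u k) (((k : ℝ) + 1) * u (k + 1) t) t)
    {Z B : ℝ} (h3 : ∀ s ∈ Set.Icc 0 Z, u 3 s ≤ 0) (h4 : ∀ s ∈ Set.Icc 0 Z, 0 ≤ u 4 s)
    (h4' : ∀ s ∈ Set.Icc 0 Z, u 4 s ≤ B) : ∀ z ∈ Set.Icc 0 Z,
    u 0 z ≤ u 0 0 + u 1 0 * z + u 2 0 * z ^ 2 ∧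
    u 0 0 + u 1 0 * z + u 2 0 * z ^ 2 + u 3 0 * z ^ 3 ≤ u 0 z ∧
    u 0 z ≤ u 0 0 + u 1 0 * z + u 2 0 * z ^ 2 + u 3 0 * z ^ 3 + B * z ^ 4 := by
  have d0 : ∀ t, HasDerivAt (u 0) (u 1 t) t := fun t => by simpa using hd 0 t
  have d1 : ∀ t, HasDerivAt (u 1) (2 * u 2 t) t := fun t => by
    have := hd 1 t
    norm_num at this
    exact this
  have d2 : ∀ t, HasDerivAt (u 2) (3 * u 3 t) t := fun t => by
    have := hd 2 t
    norm_num at this
    exact this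
  have d3 : ∀ t, HasDerivAt (u 3) (4 * u 4 t) t := fun t => by
    have := hd 3 t
    norm_num at this
    exact this
  have pd : ∀ (a b c d e : ℝ) (t : ℝ), HasDerivAt
      (fun s : ℝ => a + b * s + c * s ^ 2 + d * s ^ 3 + e * s ^ 4)
      (b + 2 * c * t + 3 * d * t ^ 2 + 4 * e * t ^ 3) t := by
    intro a b c d e t
    have h1 := ((((hasDerivAt_const t a).add ((hasDerivAt_id t).const_mul b)).add
      ((hasDerivAt_pow 2 t).const_mul c)).add ((hasDerivAt_pow 3 t).const_mul d)).add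
      ((hasDerivAt_pow 4 t).const_mul e)
    refine h1.congr_deriv ?_
    simp
    ring
  -- lower bounds
  have l3 : ∀ z ∈ Set.Icc 0 Z, u 3 0 + 0 * z + 0 * z ^ 2 + 0 * z ^ 3 + 0 * z ^ 4 ≤ u 3 z :=
    cmp (pd _ _ _ _ _) d3 (by simp) (fun s hs => by have := h4 s hs; nlinarith)
  have l2 : ∀ z ∈ Set.Icc 0 Z, u 2 0 + 3 * u 3 0 * z + 0 * z ^ 2 + 0 * z ^ 3 + 0 * z ^ 4 ≤ u 2 z :=
    cmp (pd _ _ _ _ _) d2 (by simp) (fun s hs => by have := l3 s hs; nlinarith)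
  have l1 : ∀ z ∈ Set.Icc 0 Z, u 1 0 + 2 * u 2 0 * z + 3 * u 3 0 * z ^ 2 + 0 * z ^ 3 +
      0 * z ^ 4 ≤ u 1 z :=
    cmp (pd _ _ _ _ _) d1 (by simp) (fun s hs => by have := l2 s hs; nlinarith)
  have l0 : ∀ z ∈ Set.Icc 0 Z, u 0 0 + u 1 0 * z + u 2 0 * z ^ 2 + u 3 0 * z ^ 3 +
      0 * z ^ 4 ≤ u 0 z :=
    cmp (pd _ _ _ _ _) d0 (by simp) (fun s hs => by have := l1 s hs; nlinarith)
  -- upper bounds of order four
  have m3 : ∀ z ∈ Set.Icc 0 Z, u 3 z ≤ u 3 0 + 4 * B * z + 0 * z ^ 2 + 0 * z ^ 3 + 0 * z ^ 4 :=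
    cmp d3 (pd _ _ _ _ _) (by simp) (fun s hs => by have := h4' s hs; nlinarith)
  have m2 : ∀ z ∈ Set.Icc 0 Z, u 2 z ≤ u 2 0 + 3 * u 3 0 * z + 6 * B * z ^ 2 + 0 * z ^ 3 +
      0 * z ^ 4 :=
    cmp d2 (pd _ _ _ _ _) (by simp) (fun s hs => by have := m3 s hs; nlinarith)
  have m1 : ∀ z ∈ Set.Icc 0 Z, u 1 z ≤ u 1 0 + 2 * u 2 0 * z + 3 * u 3 0 * z ^ 2 +
      4 * B * z ^ 3 + 0 * z ^ 4 :=
    cmp d1 (pd _ _ _ _ _) (by simp) (fun s hs => by have := m2 s hs; nlinarith)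
  have m0 : ∀ z ∈ Set.Icc 0 Z, u 0 z ≤ u 0 0 + u 1 0 * z + u 2 0 * z ^ 2 + u 3 0 * z ^ 3 +
      B * z ^ 4 :=
    cmp d0 (pd _ _ _ _ _) (by simp) (fun s hs => by have := m1 s hs; nlinarith)
  -- upper bounds of order two
  have n2 : ∀ z ∈ Set.Icc 0 Z, u 2 z ≤ u 2 0 + 0 * z + 0 * z ^ 2 + 0 * z ^ 3 + 0 * z ^ 4 :=
    cmp d2 (pd _ _ _ _ _) (by simp) (fun s hs => by have := h3 s hs; nlinarith)
  have n1 : ∀ z ∈ Set.Icc 0 Z, u 1 z ≤ u 1 0 + 2 * u 2 0 * z + 0 * z ^ 2 + 0 * z ^ 3 +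
      0 * z ^ 4 :=
    cmp d1 (pd _ _ _ _ _) (by simp) (fun s hs => by have := n2 s hs; nlinarith)
  have n0 : ∀ z ∈ Set.Icc 0 Z, u 0 z ≤ u 0 0 + u 1 0 * z + u 2 0 * z ^ 2 + 0 * z ^ 3 +
      0 * z ^ 4 :=
    cmp d0 (pd _ _ _ _ _) (by simp) (fun s hs => by have := n1 s hs; nlinarith)
  intro z hz
  refine ⟨?_, ?_, m0 z hz⟩
  · have := n0 z hz
    linarith
  · have := l0 z hz
    linarith

/-! ## Signs -/

theorem W_neg (Y N : Matrix ι ι ℂ) (m k : ℕ) : W Y (-N) m k = (-1 : ℂ) ^ k • W Y N m k := by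
  induction m generalizing k with
  | zero =>
    cases k with
    | zero => change (1 : Matrix ι ι ℂ) = _ • (1 : Matrix ι ι ℂ); simp
    | succ k => change (0 : Matrix ι ι ℂ) = _ • (0 : Matrix ι ι ℂ); simp
  | succ m ih =>
    cases k with
    | zero =>
      change Y * W Y (-N) m 0 = _ • (Y * W Y N m 0)
      rw [ih 0]
      simp
    | succ k =>
      change Y * W Y (-N) m (k + 1) + (-N) * W Y (-N) m k = _ • (Y * W Y N m (k + 1) + N * W Y N m k)
      rw [ih (k + 1), ih k, Matrix.mul_smul, Matrix.mul_smul, smul_add, pow_succ, neg_mul, smul_neg]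
      congr 1
      simp

theorem DD_neg (g : ℝ[X]) (Y N : Matrix ι ι ℂ) (k : ℕ) :
    DD g Y (-N) k = (-1) ^ (k + 1) * DD g Y N k := by
  unfold DD
  rw [Polynomial.sum_def, Polynomial.sum_def, Finset.mul_sum]
  apply Finset.sum_congr rfl
  intro m _
  rw [W_neg, Matrix.mul_smul, neg_mul, smul_neg, Matrix.trace_neg, Matrix.trace_smul, smul_eq_mul]
  have : ((-1 : ℂ) ^ k) = (((-1 : ℝ) ^ k : ℝ) : ℂ) := by push_cast; ring
  rw [this, Complex.neg_re, Complex.re_ofReal_mul, pow_succ]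
  ring

theorem W_top (Y N : Matrix ι ι ℂ) (m : ℕ) : W Y N m m = N ^ m ∧ ∀ k, m < k → W Y N m k = 0 := by
  induction m with
  | zero =>
    refine ⟨by simp [W], ?_⟩
    intro k hk
    obtain ⟨k, rfl⟩ := Nat.exists_eq_succ_of_ne_zero hk.ne'
    rfl
  | succ m ih =>
    refine ⟨?_, ?_⟩
    · change Y * W Y N m (m + 1) + N * W Y N m m = _
      rw [ih.1, ih.2 (m + 1) (Nat.lt_succ_self m), mul_zero, zero_add, pow_succ']
    · intro k hk
      obtain ⟨k, rfl⟩ := Nat.exists_eq_succ_of_ne_zero (Nat.ne_of_gt (Nat.lt_of_le_of_lt (Nat.zero_le _) hk))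
      change Y * W Y N m (k + 1) + N * W Y N m k = 0
      rw [ih.2 (k + 1) (by omega), ih.2 k (by omega), mul_zero, mul_zero, add_zero]

theorem DD_cube (a : ℝ) (Y N : Matrix ι ι ℂ) :
    DD (monomial 3 a) Y N 3 = a * ((N ^ 4).trace).re := by
  have e : DD (monomial 3 a) Y N 3 = a * ((N * W Y N 3 3).trace).re :=
    Polynomial.sum_monomial_index a _ (by simp)
  rw [e, (W_top Y N 3).1, ← pow_succ']

/-! ## Hermitian `Y` -/

/-- fourth order positivity (block T-2c) -/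
def Pos3 (ι : Type) [Fintype ι] [DecidableEq ι] : Prop :=
  ∀ (g : ℝ[X]) (x : ι → ℝ) (R : ℝ) (N : Matrix ι ι ℂ), N.IsHermitian → (∀ i, |x i| ≤ R) →
    (∀ r, |r| ≤ R → 0 ≤ (derivative (derivative (derivative g))).eval r) →
    0 ≤ (∑ i, ∑ j, ∑ k, ∑ l, N i j * N j k * N k l * N l i *
        ((dd3 g (x i) (x j) (x k) (x l) : ℝ) : ℂ)).re

/-- third order positivity (block T-2c) -/
def Pos2 (ι : Type) [Fintype ι] [DecidableEq ι] : Prop :=
  ∀ (g : ℝ[X]) (x : ι → ℝ) (R : ℝ) (N : Matrix ι ι ℂ), N.PosSemidef → (∀ i, |x i| ≤ R) →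
    (∀ r, |r| ≤ R → 0 ≤ (derivative (derivative g)).eval r) →
    0 ≤ (∑ i, ∑ j, ∑ k, N i j * N j k * N k i *
        ((dd2 g (x i) (x j) (x k) : ℝ) : ℂ)).re

theorem diag_form {Y : Matrix ι ι ℂ} (hY : Y.IsHermitian) {R : ℝ}
    (hR : ∀ x ∈ spectrum ℝ Y, |x| ≤ R) : ∃ (U : Matrix ι ι ℂ) (y : ι → ℝ),
    U * Uᴴ = 1 ∧ Uᴴ * U = 1 ∧ (∀ i, |y i| ≤ R) ∧
    ∀ (g : ℝ[X]) (N : Matrix ι ι ℂ) (k : ℕ),
      DD g Y N k = DD g (Matrix.diagonal fun i => (y i : ℂ)) (Uᴴ * N * U) k := by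
  obtain ⟨U, h1, h2, h3⟩ := Pool.Agent.RC.SER.exists_diag_eig hY
  refine ⟨U, hY.eigenvalues, h1, h2, fun i => hR _ (hY.eigenvalues_mem_spectrum_real i), ?_⟩
  intro g N k
  have h := DD_conj (U := Uᴴ) (V := U) h1 h2 g Y N k
  rw [h3] at h
  exact h.symm

theorem DD3_nonneg (P : Pos3 ι) {Y N : Matrix ι ι ℂ} (hY : Y.IsHermitian) (hN : N.IsHermitian)
    {R : ℝ} (hR : ∀ x ∈ spectrum ℝ Y, |x| ≤ R) (g : ℝ[X])
    (hg : ∀ r, |r| ≤ R → 0 ≤ (derivative (derivative (derivative g))).eval r) :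
    0 ≤ DD g Y N 3 := by
  obtain ⟨U, y, h1, h2, h3, h4⟩ := diag_form hY hR
  rw [h4, DD_diag3]
  exact P g y R _ (Matrix.isHermitian_conjTranspose_mul_mul U hN) h3 hg

theorem DD2_nonneg (P : Pos2 ι) {Y N : Matrix ι ι ℂ} (hY : Y.IsHermitian) (hN : N.PosSemidef)
    {R : ℝ} (hR : ∀ x ∈ spectrum ℝ Y, |x| ≤ R) (g : ℝ[X])
    (hg : ∀ r, |r| ≤ R → 0 ≤ (derivative (derivative g)).eval r) :
    0 ≤ DD g Y N 2 := by
  obtain ⟨U, y, h1, h2, h3, h4⟩ := diag_form hY hR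
  rw [h4, DD_diag2]
  exact P g y R _ (hN.conjTranspose_mul_mul_same U) h3 hg

theorem dd1_nonneg (g : ℝ[X]) {R a b : ℝ} (ha : |a| ≤ R) (hb : |b| ≤ R)
    (hg : ∀ r, |r| ≤ R → 0 ≤ (derivative g).eval r) : 0 ≤ dd1 g a b := by
  have hm : MonotoneOn (fun t => g.eval t) (Set.Icc (-R) R) := by
    apply monotoneOn_of_deriv_nonneg (convex_Icc _ _) g.continuous.continuousOn
      g.differentiable.differentiableOn
    intro x hx
    rw [Polynomial.deriv]
    rw [interior_Icc] at hx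
    exact hg x (abs_le.2 ⟨hx.1.le, hx.2.le⟩)
  rcases lt_trichotomy a b with h | h | h
  · have h1 := hm (abs_le.1 ha) (abs_le.1 hb) h.le
    have h2 := dd1_mul g a b
    simp only at h1
    by_contra h3
    have h4 : 0 < (a - b) * dd1 g a b := mul_pos_of_neg_of_neg (by linarith) (not_le.1 h3)
    linarith
  · rw [h, dd1_self]
    exact hg b hb
  · have h1 := hm (abs_le.1 hb) (abs_le.1 ha) h.le
    have h2 := dd1_mul g a b
    simp only at h1
    by_contra h3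
    have h4 : (a - b) * dd1 g a b < 0 := mul_neg_of_pos_of_neg (by linarith) (not_le.1 h3)
    linarith

theorem DD1_nonneg {Y N : Matrix ι ι ℂ} (hY : Y.IsHermitian) (hN : N.IsHermitian)
    {R : ℝ} (hR : ∀ x ∈ spectrum ℝ Y, |x| ≤ R) (g : ℝ[X])
    (hg : ∀ r, |r| ≤ R → 0 ≤ (derivative g).eval r) :
    0 ≤ DD g Y N 1 := by
  obtain ⟨U, y, h1, h2, h3, h4⟩ := diag_form hY hR
  rw [h4, DD_diag1, Complex.re_sum]
  apply Finset.sum_nonneg
  intro i _
  rw [Complex.re_sum]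
  apply Finset.sum_nonneg
  intro j _
  have hH := Matrix.isHermitian_conjTranspose_mul_mul U hN
  have e : (Uᴴ * N * U) j i = (starRingEnd ℂ) ((Uᴴ * N * U) i j) := by
    rw [← hH.apply j i]
    rfl
  rw [e, Complex.mul_conj, ← Complex.ofReal_mul, Complex.ofReal_re]
  exact mul_nonneg (Complex.normSq_nonneg _) (dd1_nonneg g (h3 i) (h3 j) hg)

/-- BLOCK T-2a: the Taylor inequalities for polynomials -/
theorem polyTone (P3 : Pos3 ι) (P2 : Pos2 ι) {X N : Matrix ι ι ℂ} (hX : X.IsHermitian)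
    (hN : N.PosSemidef) : ∃ K : ℝ, 0 ≤ K ∧ ∀ (R Z M4 : ℝ) (f : ℝ[X]), 0 ≤ Z →
    (∀ z ∈ Set.Icc 0 Z, ∀ x ∈ spectrum ℝ (X - (z : ℂ) • N), |x| ≤ R) →
    (∀ x, |x| ≤ R → 0 ≤ (derivative (derivative f)).eval x ∧
      0 ≤ (derivative (derivative (derivative f))).eval x ∧
      0 ≤ (derivative (derivative (derivative (derivative f)))).eval x ∧
      (derivative (derivative (derivative (derivative f)))).eval x ≤ M4) →
    ∃ c2 c3 : ℝ, 0 ≤ c2 ∧ 0 ≤ c3 ∧ ∀ z ∈ Set.Icc 0 Z,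
      ((aeval (X - (z : ℂ) • N) f).trace).re ≤
        ((aeval X f).trace).re - ((N * aeval X (derivative f)).trace).re * z + c2 * z ^ 2 ∧
      ((aeval X f).trace).re - ((N * aeval X (derivative f)).trace).re * z + c2 * z ^ 2 -
        c3 * z ^ 3 ≤ ((aeval (X - (z : ℂ) • N) f).trace).re ∧
      ((aeval (X - (z : ℂ) • N) f).trace).re ≤
        ((aeval X f).trace).re - ((N * aeval X (derivative f)).trace).re * z + c2 * z ^ 2 -
        c3 * z ^ 3 + K * M4 * z ^ 4 := by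
  refine ⟨((N ^ 4).trace).re / 24, ?_, ?_⟩
  · apply div_nonneg _ (by norm_num)
    have h := (hN.pow 4).trace_nonneg
    exact (Complex.le_def.1 h).1
  intro R Z M4 f hZ hR hf
  have hNh := hN.isHermitian
  have hY : ∀ s : ℝ, X + (s : ℂ) • (-N) = X - (s : ℂ) • N := by
    intro s
    rw [smul_neg, sub_eq_add_neg]
  have hYh : ∀ s : ℝ, (X - (s : ℂ) • N).IsHermitian := by
    intro s
    have : ((s : ℂ) • N).IsHermitian := by
      unfold Matrix.IsHermitian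
      rw [Matrix.conjTranspose_smul, hNh.eq]
      simp
    exact hX.sub this
  set u : ℕ → ℝ → ℝ := fun k s => CC f (X + (s : ℂ) • (-N)) (-N) k with hu
  have hd : ∀ k t, HasDerivAt (u k) (((k : ℝ) + 1) * u (k + 1) t) t := fun k t =>
    hasDerivAt_CC f X (-N) k t
  have e1 : ∀ s, u 1 s = - DD (derivative f) (X - (s : ℂ) • N) N 0 := by
    intro s
    have h := CC_succ f (X + (s : ℂ) • (-N)) (-N) 0
    rw [DD_neg, hY] at h
    simp only [hu]
    rw [hY]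
    norm_num at h
    exact h
  have e2 : ∀ s, 2 * u 2 s = DD (derivative f) (X - (s : ℂ) • N) N 1 := by
    intro s
    have h := CC_succ f (X + (s : ℂ) • (-N)) (-N) 1
    rw [DD_neg, hY] at h
    simp only [hu]
    rw [hY]
    norm_num at h
    exact h
  have e3 : ∀ s, 3 * u 3 s = - DD (derivative f) (X - (s : ℂ) • N) N 2 := by
    intro s
    have h := CC_succ f (X + (s : ℂ) • (-N)) (-N) 2
    rw [DD_neg, hY] at h
    simp only [hu]
    rw [hY]
    norm_num at h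
    exact h
  have e4 : ∀ s, 4 * u 4 s = DD (derivative f) (X - (s : ℂ) • N) N 3 := by
    intro s
    have h := CC_succ f (X + (s : ℂ) • (-N)) (-N) 3
    rw [DD_neg, hY] at h
    simp only [hu]
    rw [hY]
    norm_num at h
    exact h
  have h3 : ∀ s ∈ Set.Icc 0 Z, u 3 s ≤ 0 := by
    intro s hs
    have := DD2_nonneg P2 (hYh s) hN (hR s hs) (derivative f) (fun r hr => (hf r hr).2.1)
    have := e3 s
    linarith
  have h4 : ∀ s ∈ Set.Icc 0 Z, 0 ≤ u 4 s := by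
    intro s hs
    have := DD3_nonneg P3 (hYh s) hNh (hR s hs) (derivative f) (fun r hr => (hf r hr).2.2.1)
    have := e4 s
    linarith
  have h4' : ∀ s ∈ Set.Icc 0 Z, u 4 s ≤ ((N ^ 4).trace).re / 24 * M4 := by
    intro s hs
    have h5 : ∀ r, |r| ≤ R → 0 ≤ (derivative (derivative (derivative
        (monomial 3 (M4 / 6) + -(derivative f))))).eval r := by
      intro r hr
      have e : (derivative (derivative (derivative
        (monomial 3 (M4 / 6) + -(derivative f))))).eval r =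
          M4 - (derivative (derivative (derivative (derivative f)))).eval r := by
        simp only [derivative_add, derivative_neg, derivative_monomial, eval_add, eval_neg,
          eval_monomial]
        norm_num
        ring
      rw [e]
      linarith [(hf r hr).2.2.2]
    have h6 := DD3_nonneg P3 (hYh s) hNh (hR s hs) _ h5
    have h7 : DD (-(derivative f)) (X - (s : ℂ) • N) N 3 =
        - DD (derivative f) (X - (s : ℂ) • N) N 3 := by
      have h := DD_add (derivative f) (-(derivative f)) (X - (s : ℂ) • N) N 3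
      rw [add_neg_cancel] at h
      have h0 : DD (0 : ℝ[X]) (X - (s : ℂ) • N) N 3 = 0 := by
        unfold DD
        exact Polynomial.sum_zero_index _
      linarith
    rw [DD_add, DD_cube, h7] at h6
    have := e4 s
    linarith
  have ht := taylor4 hd h3 h4 h4'
  have h0 : ∀ s, u 0 s = ((aeval (X - (s : ℂ) • N) f).trace).re := by
    intro s
    simp only [hu]
    rw [CC_zero, hY]
  have hX0 : X - ((0 : ℝ) : ℂ) • N = X := by simp
  have h10 : u 1 0 = -((N * aeval X (derivative f)).trace).re := by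
    rw [e1 0, DD_zero, hX0]
  refine ⟨u 2 0, -u 3 0, ?_, ?_, ?_⟩
  · have := DD1_nonneg (hYh 0) hNh (hR 0 ⟨le_rfl, hZ⟩) (derivative f) (fun r hr => (hf r hr).1)
    have := e2 0
    linarith
  · have := h3 0 ⟨le_rfl, hZ⟩
    linarith
  · intro z hz
    obtain ⟨t1, t2, t3⟩ := ht z hz
    rw [← h0 z]
    have h00 := h0 0
    rw [hX0] at h00
    rw [← h00]
    rw [h10] at t1 t2 t3
    refine ⟨by linarith, by linarith, by linarith⟩

end Pool.Agent.Lib_helper30.TN
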