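import Pool.Agent.Lib_helper30.TN.Lim
import Pool.Agent.Lib_helper42.T56.Pos

/-!
# The three- and four-tone inequalities of the pencil function `tau`, for all `z ≥ 0`
-/

open Matrix Pool.Agent.RC
open scoped ComplexOrder MatrixOrder

namespace Pool.Agent.Lib_helper30.TN

variable {ι : Type} [Fintype ι] [DecidableEq ι]

/-- Taylor inequalities of order two, three and four for `Tr (X - z N)_+ ^ p`, `N ≥ 0` -/
theorem trF_tone {p : ℝ} (hp : 4 < p) {X N : Matrix ι ι ℂ}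
    (hX : X.IsHermitian) (hN : N.PosSemidef) :
    ∃ c2 c3 C : ℝ, 0 ≤ c2 ∧ 0 ≤ c3 ∧ 0 ≤ C ∧ ∀ z : ℝ, 0 ≤ z →
        trF (INE.pp p) (X - (z : ℂ) • N) ≤ trF (INE.pp p) X -
          p * ((cfc (gp p) X * N).trace).re * z + c2 * z ^ 2 ∧
        trF (INE.pp p) X - p * ((cfc (gp p) X * N).trace).re * z + c2 * z ^ 2 - c3 * z ^ 3 ≤
          trF (INE.pp p) (X - (z : ℂ) • N) ∧
        trF (INE.pp p) (X - (z : ℂ) • N) ≤ trF (INE.pp p) X -
          p * ((cfc (gp p) X * N).trace).re * z + c2 * z ^ 2 - c3 * z ^ 3 + C * z ^ 4 :=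
  tone Pool.Agent.Lib_helper42.T56.pos3 Pool.Agent.Lib_helper42.T56.pos2 hp hX hN

/-- BLOCK TONE: Taylor inequalities of order two, three and four for `tau`, `p > 4` -/
theorem tau_tone {p : ℝ} (hp : 4 < p) {A D : Matrix ι ι ℂ}
    (h1 : (A - D).PosSemidef) (h2 : (A + D).PosSemidef) :
    ∃ c2 c3 C : ℝ, 0 ≤ c2 ∧ 0 ≤ c3 ∧ 0 ≤ C ∧ ∀ z : ℝ, 0 ≤ z →
        tau p A D z ≤ tau p A D 0 - eta p A D 0 * z + c2 * z ^ 2 ∧
        tau p A D 0 - eta p A D 0 * z + c2 * z ^ 2 - c3 * z ^ 3 ≤ tau p A D z ∧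
        tau p A D z ≤ tau p A D 0 - eta p A D 0 * z + c2 * z ^ 2 - c3 * z ^ 3 + C * z ^ 4 := by
  have hD : D.IsHermitian := by
    have h3 : ((A + D) - (A - D)).IsHermitian := h2.isHermitian.sub h1.isHermitian
    have h4 : (A + D) - (A - D) = (2 : ℂ) • D := by
      rw [two_smul]
      abel
    rw [h4] at h3
    have h5 := herm_real_smul h3 (1 / 2)
    have h6 : (((1 / 2 : ℝ) : ℂ)) • (2 : ℂ) • D = D := by
      rw [smul_smul]
      push_cast
      norm_num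
    rwa [h6] at h5
  exact tau_tone_of Pool.Agent.Lib_helper42.T56.pos3 Pool.Agent.Lib_helper42.T56.pos2 hp h1 h2 hD

end Pool.Agent.Lib_helper30.TN
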