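import Pool.Agent.Lib_helper30.TN.Tone

/-!
# Two-sided Taylor expansion of order four of `z ↦ Tr (X - z N)_+ ^ p`, `p > 4`, uniform in `X`
-/

open Polynomial Matrix Pool.Agent.Lib_helper42.T56 Pool.Agent.RC
open scoped ComplexOrder MatrixOrder

namespace Pool.Agent.Lib_helper30.TN

variable {ι : Type} [Fintype ι] [DecidableEq ι]

theorem taylorQ {u : ℕ → ℝ → ℝ} (hd : ∀ k t, HasDerivAt (u k) (((k : ℝ) + 1) * u (k + 1) t) t)
    {Z B : ℝ} (h4 : ∀ s ∈ Set.Icc 0 Z, 0 ≤ u 4 s)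
    (h4' : ∀ s ∈ Set.Icc 0 Z, u 4 s ≤ B) : ∀ z ∈ Set.Icc 0 Z,
    u 0 0 + u 1 0 * z + u 2 0 * z ^ 2 + u 3 0 * z ^ 3 ≤ u 0 z ∧
    u 0 z ≤ u 0 0 + u 1 0 * z + u 2 0 * z ^ 2 + u 3 0 * z ^ 3 + B * z ^ 4 := by
  have d0 : ∀ t, HasDerivAt (u 0) (u 1 t) t := fun t => by simpa using hd 0 t
  have d1 : ∀ t, HasDerivAt (u 1) (2 * u 2 t) t := fun t => by
    have := hd 1 t
    norm_num at this
    exact this
  have d2 : ∀ t, HasDerivAt (u 2) (3 * u 3 t) t := fun t => by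
    have := hd 2 t
    norm_num at this
    exact this
  have d3 : ∀ t, HasDerivAt (u 3) (4 * u 4 t) t := fun t => by
    have := hd 3 t
    norm_num at this
    exact this
  have pd : ∀ (a b c d e : ℝ) (t : ℝ), HasDerivAt
      (fun s : ℝ => a + b * s + c * s ^ 2 + d * s ^ 3 + e * s ^ 4)
      (b + 2 * c * t + 3 * d * t ^ 2 + 4 * e * t ^ 3) t := by
    intro a b c d e t
    have h1 := ((((hasDerivAt_const t a).add ((hasDerivAt_id t).const_mul b)).add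
      ((hasDerivAt_pow 2 t).const_mul c)).add ((hasDerivAt_pow 3 t).const_mul d)).add
      ((hasDerivAt_pow 4 t).const_mul e)
    refine h1.congr_deriv ?_
    simp
    ring
  have l3 : ∀ z ∈ Set.Icc 0 Z, u 3 0 + 0 * z + 0 * z ^ 2 + 0 * z ^ 3 + 0 * z ^ 4 ≤ u 3 z :=
    cmp (pd _ _ _ _ _) d3 (by simp) (fun s hs => by have := h4 s hs; nlinarith)
  have l2 : ∀ z ∈ Set.Icc 0 Z, u 2 0 + 3 * u 3 0 * z + 0 * z ^ 2 + 0 * z ^ 3 + 0 * z ^ 4 ≤ u 2 z :=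
    cmp (pd _ _ _ _ _) d2 (by simp) (fun s hs => by have := l3 s hs; nlinarith)
  have l1 : ∀ z ∈ Set.Icc 0 Z, u 1 0 + 2 * u 2 0 * z + 3 * u 3 0 * z ^ 2 + 0 * z ^ 3 +
      0 * z ^ 4 ≤ u 1 z :=
    cmp (pd _ _ _ _ _) d1 (by simp) (fun s hs => by have := l2 s hs; nlinarith)
  have l0 : ∀ z ∈ Set.Icc 0 Z, u 0 0 + u 1 0 * z + u 2 0 * z ^ 2 + u 3 0 * z ^ 3 +
      0 * z ^ 4 ≤ u 0 z :=
    cmp (pd _ _ _ _ _) d0 (by simp) (fun s hs => by have := l1 s hs; nlinarith)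
  have m3 : ∀ z ∈ Set.Icc 0 Z, u 3 z ≤ u 3 0 + 4 * B * z + 0 * z ^ 2 + 0 * z ^ 3 + 0 * z ^ 4 :=
    cmp d3 (pd _ _ _ _ _) (by simp) (fun s hs => by have := h4' s hs; nlinarith)
  have m2 : ∀ z ∈ Set.Icc 0 Z, u 2 z ≤ u 2 0 + 3 * u 3 0 * z + 6 * B * z ^ 2 + 0 * z ^ 3 +
      0 * z ^ 4 :=
    cmp d2 (pd _ _ _ _ _) (by simp) (fun s hs => by have := m3 s hs; nlinarith)
  have m1 : ∀ z ∈ Set.Icc 0 Z, u 1 z ≤ u 1 0 + 2 * u 2 0 * z + 3 * u 3 0 * z ^ 2 +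
      4 * B * z ^ 3 + 0 * z ^ 4 :=
    cmp d1 (pd _ _ _ _ _) (by simp) (fun s hs => by have := m2 s hs; nlinarith)
  have m0 : ∀ z ∈ Set.Icc 0 Z, u 0 z ≤ u 0 0 + u 1 0 * z + u 2 0 * z ^ 2 + u 3 0 * z ^ 3 +
      B * z ^ 4 :=
    cmp d0 (pd _ _ _ _ _) (by simp) (fun s hs => by have := m1 s hs; nlinarith)
  intro z hz
  refine ⟨?_, m0 z hz⟩
  have := l0 z hz
  linarith

/-- the two-sided Taylor inequality for polynomials -/
theorem polyTwo (P3 : Pos3 ι) {X N : Matrix ι ι ℂ} (hX : X.IsHermitian)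
    (hN : N.IsHermitian) {R Z M4 : ℝ} (f : ℝ[X])
    (hR : ∀ z ∈ Set.Icc (-Z) Z, ∀ x ∈ spectrum ℝ (X - (z : ℂ) • N), |x| ≤ R)
    (hf : ∀ x, |x| ≤ R →
      0 ≤ (derivative (derivative (derivative (derivative f)))).eval x ∧
      (derivative (derivative (derivative (derivative f)))).eval x ≤ M4) :
    ∃ a0 a1 a2 a3 : ℝ, ∀ z ∈ Set.Icc (-Z) Z,
      |((aeval (X - (z : ℂ) • N) f).trace).re - (a0 + a1 * z + a2 * z ^ 2 + a3 * z ^ 3)| ≤
        ((N ^ 4).trace).re / 24 * M4 * z ^ 4 := by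
  have hY : ∀ s : ℝ, X + (s : ℂ) • (-N) = X - (s : ℂ) • N := by
    intro s
    rw [smul_neg, sub_eq_add_neg]
  have hYh : ∀ s : ℝ, (X - (s : ℂ) • N).IsHermitian := by
    intro s
    have : ((s : ℂ) • N).IsHermitian := by
      unfold Matrix.IsHermitian
      rw [Matrix.conjTranspose_smul, hN.eq]
      simp
    exact hX.sub this
  set u : ℕ → ℝ → ℝ := fun k s => CC f (X + (s : ℂ) • (-N)) (-N) k with hu
  have hd : ∀ k t, HasDerivAt (u k) (((k : ℝ) + 1) * u (k + 1) t) t := fun k t =>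
    hasDerivAt_CC f X (-N) k t
  set v : ℕ → ℝ → ℝ := fun k s => (-1) ^ k * u k (-s) with hv
  have hdv : ∀ k t, HasDerivAt (v k) (((k : ℝ) + 1) * v (k + 1) t) t := by
    intro k t
    have h1 := ((hd k (-t)).comp t (hasDerivAt_neg t)).const_mul ((-1 : ℝ) ^ k)
    refine h1.congr_deriv ?_
    simp only [hv]
    rw [pow_succ]
    ring
  have e4 : ∀ s, 4 * u 4 s = DD (derivative f) (X - (s : ℂ) • N) N 3 := by
    intro s
    have h := CC_succ f (X + (s : ℂ) • (-N)) (-N) 3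
    rw [DD_neg, hY] at h
    simp only [hu]
    rw [hY]
    norm_num at h
    exact h
  have h4 : ∀ s ∈ Set.Icc (-Z) Z, 0 ≤ u 4 s := by
    intro s hs
    have := DD3_nonneg P3 (hYh s) hN (hR s hs) (derivative f) (fun r hr => (hf r hr).1)
    have := e4 s
    linarith
  have h4' : ∀ s ∈ Set.Icc (-Z) Z, u 4 s ≤ ((N ^ 4).trace).re / 24 * M4 := by
    intro s hs
    have h5 : ∀ r, |r| ≤ R → 0 ≤ (derivative (derivative (derivative
        (monomial 3 (M4 / 6) + -(derivative f))))).eval r := by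
      intro r hr
      have e : (derivative (derivative (derivative
        (monomial 3 (M4 / 6) + -(derivative f))))).eval r =
          M4 - (derivative (derivative (derivative (derivative f)))).eval r := by
        simp only [derivative_add, derivative_neg, derivative_monomial, eval_add, eval_neg,
          eval_monomial]
        norm_num
        ring
      rw [e]
      linarith [(hf r hr).2]
    have h6 := DD3_nonneg P3 (hYh s) hN (hR s hs) _ h5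
    have h7 : DD (-(derivative f)) (X - (s : ℂ) • N) N 3 =
        - DD (derivative f) (X - (s : ℂ) • N) N 3 := by
      have h := DD_add (derivative f) (-(derivative f)) (X - (s : ℂ) • N) N 3
      rw [add_neg_cancel] at h
      have h0 : DD (0 : ℝ[X]) (X - (s : ℂ) • N) N 3 = 0 := by
        unfold DD
        exact Polynomial.sum_zero_index _
      linarith
    rw [DD_add, DD_cube, h7] at h6
    have := e4 s
    linarith
  have h0 : ∀ s, u 0 s = ((aeval (X - (s : ℂ) • N) f).trace).re := by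
    intro s
    simp only [hu]
    rw [CC_zero, hY]
  have hv4 : ∀ s, v 4 s = u 4 (-s) := by
    intro s
    simp only [hv]
    norm_num
  have tu := taylorQ hd (Z := Z) (fun s hs => h4 s ⟨by linarith [hs.1, hs.2], hs.2⟩)
    (fun s hs => h4' s ⟨by linarith [hs.1, hs.2], hs.2⟩)
  have tv := taylorQ hdv (Z := Z)
    (fun s hs => by rw [hv4]; exact h4 (-s) ⟨by linarith [hs.2], by linarith [hs.1, hs.2]⟩)
    (fun s hs => by rw [hv4]; exact h4' (-s) ⟨by linarith [hs.2], by linarith [hs.1, hs.2]⟩)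
  refine ⟨u 0 0, u 1 0, u 2 0, u 3 0, ?_⟩
  intro z hz
  rw [← h0 z]
  rcases le_total 0 z with hz0 | hz0
  · obtain ⟨t1, t2⟩ := tu z ⟨hz0, hz.2⟩
    rw [abs_le]
    constructor
    · have : 0 ≤ ((N ^ 4).trace).re / 24 * M4 * z ^ 4 := by linarith
      linarith
    · linarith
  · obtain ⟨t1, t2⟩ := tv (-z) ⟨by linarith, by linarith [hz.1]⟩
    have e0 : v 0 (-z) = u 0 z := by simp [hv]
    have f0 : v 0 0 = u 0 0 := by simp [hv]
    have f1 : v 1 0 = - u 1 0 := by simp [hv]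
    have f2 : v 2 0 = u 2 0 := by simp [hv]
    have f3 : v 3 0 = - u 3 0 := by
      simp only [hv, neg_zero]
      norm_num
    rw [e0, f0, f1, f2, f3] at t1 t2
    have g2 : (-z) ^ 2 = z ^ 2 := by ring
    have g3 : (-z) ^ 3 = - z ^ 3 := by ring
    have g4 : (-z) ^ 4 = z ^ 4 := by ring
    rw [g2, g3] at t1
    rw [g2, g3, g4] at t2
    rw [abs_le]
    constructor
    · have : 0 ≤ ((N ^ 4).trace).re / 24 * M4 * z ^ 4 := by linarith
      linarith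
    · linarith

/-- the two-sided expansion, uniform over `X` -/
theorem two_Z (P3 : Pos3 ι) {p : ℝ} (hp : 4 < p) {N : Matrix ι ι ℂ}
    (hN : N.IsHermitian) {R : ℝ} (hR0 : 0 < R) :
    ∃ C : ℝ, 0 ≤ C ∧ ∀ (X : Matrix ι ι ℂ) (Z : ℝ), X.IsHermitian → 0 < Z →
      (∀ z ∈ Set.Icc (-Z) Z, ∀ x ∈ spectrum ℝ (X - (z : ℂ) • N), |x| ≤ R) →
      ∃ a0 a1 a2 a3 : ℝ, ∀ z ∈ Set.Icc (-Z) Z,
        |trF (INE.pp p) (X - (z : ℂ) • N) - (a0 + a1 * z + a2 * z ^ 2 + a3 * z ^ 3)| ≤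
          C * z ^ 4 := by
  obtain ⟨M4, hM4, happ⟩ := approx hp hR0
  have hK : 0 ≤ ((N ^ 4).trace).re := by
    have h1 : (N ^ 2)ᴴ * (N ^ 2) = N ^ 4 := by
      rw [Matrix.conjTranspose_pow, hN.eq, ← pow_add]
    rw [← h1]
    exact (Complex.le_def.1 (Matrix.posSemidef_conjTranspose_mul_self (N ^ 2)).trace_nonneg).1
  refine ⟨((N ^ 4).trace).re / 24 * M4, by positivity, ?_⟩
  intro X Z hX hZ hR
  have he : ∀ n : ℕ, 0 < 1 / ((n : ℝ) + 1) ∧ 1 / ((n : ℝ) + 1) ≤ 1 := by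
    intro n
    have h0 : (0 : ℝ) < (n : ℝ) + 1 := by positivity
    refine ⟨by positivity, ?_⟩
    rw [div_le_one h0]
    have : (0 : ℝ) ≤ n := Nat.cast_nonneg n
    linarith
  set φ : ℝ → ℝ := fun z => trF (INE.pp p) (X - (z : ℂ) • N) with hφ
  set C : ℝ := ((N ^ 4).trace).re / 24 * M4 with hC
  have hC0 : 0 ≤ C := by positivity
  set kp : ℝ := (Fintype.card ι : ℝ) with hkp
  have hkp0 : 0 ≤ kp := Nat.cast_nonneg _
  have hall : ∀ e : ℝ, 0 < e → e ≤ 1 → ∃ a0 a1 a2 a3 : ℝ, ∀ z ∈ Set.Icc (-Z) Z,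
      |φ z - (a0 + a1 * z + a2 * z ^ 2 + a3 * z ^ 3)| ≤ C * z ^ 4 + kp * e := by
    intro e he he1
    obtain ⟨f, hf⟩ := happ e he he1
    obtain ⟨a0, a1, a2, a3, ha⟩ := polyTwo P3 hX hN (M4 := M4) f hR (fun x hx =>
      ⟨(hf x hx).2.2.1, (hf x hx).2.2.2.1⟩)
    refine ⟨a0, a1, a2, a3, ?_⟩
    intro z hz
    have hYz : (X - (z : ℂ) • N).IsHermitian := hX.sub (herm_real_smul hN z)
    have b1 := trF_close (f := fun x => f.eval x) (g := INE.pp p) hYz (hR z hz)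
      (fun x hx => (hf x hx).2.2.2.2.1)
    rw [TRF.trF_poly f hYz] at b1
    have b2 := ha z hz
    rw [← hC] at b2
    rw [← hkp] at b1
    rw [abs_le] at b1 b2 ⊢
    simp only [hφ]
    constructor <;> linarith [b1.1, b1.2, b2.1, b2.2]
  choose a0 a1 a2 a3 hc using fun n : ℕ => hall (1 / ((n : ℝ) + 1)) (he n).1 (he n).2
  -- boundedness
  set b : ℝ := |φ 0| + |φ Z| + |φ (-Z)| + |φ (Z / 2)| + C * Z ^ 4 + kp with hb
  have hkpe : ∀ n : ℕ, kp * (1 / ((n : ℝ) + 1)) ≤ kp := fun n => by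
    have := mul_le_mul_of_nonneg_left (he n).2 hkp0
    linarith
  have hZ4 : 0 ≤ C * Z ^ 4 := by positivity
  have hb0 : 0 ≤ b := by positivity
  have hbd : ∀ n : ℕ, |a0 n| ≤ b ∧ |a1 n * Z| ≤ 20 * b ∧ |a2 n * Z ^ 2| ≤ 20 * b ∧
      |a3 n * Z ^ 3| ≤ 20 * b := by
    intro n
    have hk := hkpe n
    have m0 := hc n 0 ⟨by linarith, hZ.le⟩
    have m1 := hc n Z ⟨by linarith, le_rfl⟩
    have m2 := hc n (-Z) ⟨le_rfl, by linarith⟩
    have m3 := hc n (Z / 2) ⟨by linarith, by linarith⟩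
    have v0 := abs_nonneg (φ 0)
    have v1 := abs_nonneg (φ Z)
    have v2 := abs_nonneg (φ (-Z))
    have v3 := abs_nonneg (φ (Z / 2))
    have u0 := abs_le.1 (le_refl |φ 0|)
    have u1 := abs_le.1 (le_refl |φ Z|)
    have u2 := abs_le.1 (le_refl |φ (-Z)|)
    have u3 := abs_le.1 (le_refl |φ (Z / 2)|)
    have x0 : a0 n + a1 n * 0 + a2 n * 0 ^ 2 + a3 n * 0 ^ 3 = a0 n := by ring
    have x2 : a0 n + a1 n * (-Z) + a2 n * (-Z) ^ 2 + a3 n * (-Z) ^ 3 =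
        a0 n - a1 n * Z + a2 n * Z ^ 2 - a3 n * Z ^ 3 := by ring
    have x3 : a0 n + a1 n * (Z / 2) + a2 n * (Z / 2) ^ 2 + a3 n * (Z / 2) ^ 3 =
        a0 n + a1 n * Z / 2 + a2 n * Z ^ 2 / 4 + a3 n * Z ^ 3 / 8 := by ring
    have y0 : C * (0 : ℝ) ^ 4 = 0 := by ring
    have y2 : C * (-Z) ^ 4 = C * Z ^ 4 := by ring
    have y3 : C * (Z / 2) ^ 4 = C * Z ^ 4 / 16 := by ring
    rw [x0, y0, abs_le] at m0
    rw [abs_le] at m1
    rw [x2, y2, abs_le] at m2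
    rw [x3, y3, abs_le] at m3
    refine ⟨abs_le.2 ⟨?_, ?_⟩, abs_le.2 ⟨?_, ?_⟩, abs_le.2 ⟨?_, ?_⟩, abs_le.2 ⟨?_, ?_⟩⟩ <;>
      linarith [m0.1, m0.2, m1.1, m1.2, m2.1, m2.2, m3.1, m3.2, u0.1, u0.2, u1.1, u1.2,
        u2.1, u2.2, u3.1, u3.2]
  have hcomp : IsCompact ((Set.Icc (-b) b) ×ˢ (Set.Icc (-(20 * b / Z)) (20 * b / Z)) ×ˢ
      (Set.Icc (-(20 * b / Z ^ 2)) (20 * b / Z ^ 2)) ×ˢ
      (Set.Icc (-(20 * b / Z ^ 3)) (20 * b / Z ^ 3))) :=
    isCompact_Icc.prod (isCompact_Icc.prod (isCompact_Icc.prod isCompact_Icc))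
  have hdivle : ∀ x y w : ℝ, 0 < y → |x * y| ≤ w → x ∈ Set.Icc (-(w / y)) (w / y) := by
    intro x y w hy h
    rw [abs_mul, abs_of_pos hy] at h
    have : |x| ≤ w / y := by rwa [le_div_iff₀ hy]
    exact abs_le.1 this
  have hmem : ∀ n : ℕ, (a0 n, a1 n, a2 n, a3 n) ∈ ((Set.Icc (-b) b) ×ˢ
      (Set.Icc (-(20 * b / Z)) (20 * b / Z)) ×ˢ
      (Set.Icc (-(20 * b / Z ^ 2)) (20 * b / Z ^ 2)) ×ˢ
      (Set.Icc (-(20 * b / Z ^ 3)) (20 * b / Z ^ 3))) := by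
    intro n
    obtain ⟨k0, k1, k2, k3⟩ := hbd n
    exact ⟨abs_le.1 k0, hdivle _ _ _ hZ k1, hdivle _ _ _ (by positivity) k2,
      hdivle _ _ _ (by positivity) k3⟩
  obtain ⟨a, -, ψ, hψ, hlim⟩ := hcomp.tendsto_subseq hmem
  have l0 : Filter.Tendsto (fun n => a0 (ψ n)) Filter.atTop (nhds a.1) :=
    (continuous_fst.tendsto a).comp hlim
  have l1 : Filter.Tendsto (fun n => a1 (ψ n)) Filter.atTop (nhds a.2.1) :=
    ((continuous_fst.comp continuous_snd).tendsto a).comp hlim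
  have l2 : Filter.Tendsto (fun n => a2 (ψ n)) Filter.atTop (nhds a.2.2.1) :=
    ((continuous_fst.comp (continuous_snd.comp continuous_snd)).tendsto a).comp hlim
  have l3 : Filter.Tendsto (fun n => a3 (ψ n)) Filter.atTop (nhds a.2.2.2) :=
    ((continuous_snd.comp (continuous_snd.comp continuous_snd)).tendsto a).comp hlim
  have le0 : Filter.Tendsto (fun n : ℕ => kp * (1 / (((ψ n : ℕ) : ℝ) + 1))) Filter.atTop
      (nhds 0) := by
    have h1 := (tendsto_one_div_add_atTop_nhds_zero_nat (𝕜 := ℝ)).comp hψ.tendsto_atTop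
    have h2 := h1.const_mul kp
    rw [mul_zero] at h2
    exact h2
  refine ⟨a.1, a.2.1, a.2.2.1, a.2.2.2, ?_⟩
  intro z hz
  have hl : Filter.Tendsto (fun n => |φ z - (a0 (ψ n) + a1 (ψ n) * z + a2 (ψ n) * z ^ 2 +
      a3 (ψ n) * z ^ 3)|) Filter.atTop
      (nhds |φ z - (a.1 + a.2.1 * z + a.2.2.1 * z ^ 2 + a.2.2.2 * z ^ 3)|) :=
    (tendsto_const_nhds.sub (((l0.add (l1.mul_const _)).add (l2.mul_const _)).add
      (l3.mul_const _))).abs
  have hr : Filter.Tendsto (fun n => C * z ^ 4 + kp * (1 / (((ψ n : ℕ) : ℝ) + 1)))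
      Filter.atTop (nhds (C * z ^ 4 + 0)) := tendsto_const_nhds.add le0
  rw [add_zero] at hr
  exact le_of_tendsto_of_tendsto' hl hr (fun n => hc (ψ n) z hz)

theorem uniq3 {a b c C : ℝ} (hC : 0 ≤ C)
    (h : ∀ x ∈ Set.Ioc (0 : ℝ) 1, |a * x + b * x ^ 2 + c * x ^ 3| ≤ C * x ^ 4) :
    a = 0 ∧ b = 0 ∧ c = 0 := by
  have h1 := uniq (a := a) (b := -b) (C := C + |c|) (by positivity) (by
    intro x hx
    have h2 := h x hx
    have hx0 := hx.1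
    have e : a * x ^ 2 - -b * x ^ 3 = (a * x + b * x ^ 2 + c * x ^ 3) * x - c * x ^ 4 := by ring
    rw [e]
    refine (abs_sub _ _).trans ?_
    rw [abs_mul, abs_mul, abs_of_pos hx0, abs_of_nonneg (by positivity : 0 ≤ x ^ 4)]
    have h3 : |a * x + b * x ^ 2 + c * x ^ 3| * x ≤ C * x ^ 4 * x :=
      mul_le_mul_of_nonneg_right h2 hx0.le
    have h4 : C * x ^ 4 * x ≤ C * x ^ 4 * 1 := mul_le_mul_of_nonneg_left hx.2 (by positivity)
    linarith)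
  obtain ⟨ha, hb⟩ := h1
  have hb' : b = 0 := by linarith
  subst ha
  subst hb'
  have h2 := uniq (a := 0) (b := c) hC (by
    intro x hx
    have h2 := h x hx
    have e : 0 * x ^ 2 - c * x ^ 3 = -(0 * x + 0 * x ^ 2 + c * x ^ 3) := by ring
    rw [e, abs_neg]
    exact h2)
  exact ⟨rfl, rfl, h2.2⟩

theorem spec_bound2 {D N : Matrix ι ι ℂ} (hD : D.IsHermitian) (hN : N.IsHermitian) (d Z : ℝ) :
    ∃ R : ℝ, 0 < R ∧ ∀ u ∈ Set.Icc 0 d, ∀ z ∈ Set.Icc (-Z) Z,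
      ∀ x ∈ spectrum ℝ (D - (u : ℂ) • (1 : Matrix ι ι ℂ) - (z : ℂ) • N), |x| ≤ R := by
  have hc : Continuous fun w : ℝ × ℝ =>
      (((D - (w.1 : ℂ) • (1 : Matrix ι ι ℂ) - (w.2 : ℂ) • N) ^ 2).trace).re := by
    apply Complex.continuous_re.comp
    apply Continuous.matrix_trace
    apply Continuous.pow
    exact (continuous_const.sub ((Complex.continuous_ofReal.comp continuous_fst).smul
      continuous_const)).sub ((Complex.continuous_ofReal.comp continuous_snd).smul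
      continuous_const)
  obtain ⟨K, hK⟩ := (isCompact_Icc.prod isCompact_Icc :
    IsCompact ((Set.Icc (0 : ℝ) d) ×ˢ (Set.Icc (-Z) Z))).exists_bound_of_continuousOn
    hc.continuousOn
  refine ⟨|K| + 1, by positivity, ?_⟩
  intro u hu z hz x hx
  have hY : (D - (u : ℂ) • (1 : Matrix ι ι ℂ) - (z : ℂ) • N).IsHermitian :=
    (hD.sub (herm_real_smul Matrix.isHermitian_one u)).sub (herm_real_smul hN z)
  rw [hY.spectrum_real_eq_range_eigenvalues] at hx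
  obtain ⟨i, rfl⟩ := hx
  have h1 := TRF.eig_sq_le hY i
  have h2 := hK (u, z) ⟨hu, hz⟩
  rw [Real.norm_eq_abs] at h2
  simp only at h2
  have h3 := le_abs_self (((D - (u : ℂ) • (1 : Matrix ι ι ℂ) - (z : ℂ) • N) ^ 2).trace).re
  have h4 := le_abs_self K
  have h5 := abs_nonneg K
  apply abs_le_of_sq_le_sq _ (by linarith)
  nlinarith

/-- BLOCK UB: the uniform two-sided Taylor expansion of order four -/
theorem ub2 {p : ℝ} (hp : 4 < p) {D N : Matrix ι ι ℂ} (hD : D.IsHermitian)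
    (hN : N.IsHermitian) (d Z : ℝ) (hZ : 0 < Z) :
    ∃ C : ℝ, 0 ≤ C ∧ ∀ u ∈ Set.Icc 0 d, ∃ a0 a1 a2 a3 : ℝ, ∀ z ∈ Set.Icc (-Z) Z,
      |trF (INE.pp p) (D - (u : ℂ) • (1 : Matrix ι ι ℂ) - (z : ℂ) • N) -
        (a0 + a1 * z + a2 * z ^ 2 + a3 * z ^ 3)| ≤ C * z ^ 4 := by
  obtain ⟨R, hR0, hR⟩ := spec_bound2 hD hN d Z
  obtain ⟨C, hC, h⟩ := two_Z Pool.Agent.Lib_helper42.T56.pos3 hp hN hR0
  exact ⟨C, hC, fun u hu => h _ Z (hD.sub (herm_real_smul Matrix.isHermitian_one u)) hZ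
    (hR u hu)⟩

theorem ub {p : ℝ} (hp : 4 < p) {N D : Matrix ι ι ℂ} (hN : N.PosSemidef)
    (hD : D.IsHermitian) (d Z : ℝ) (_hd : 0 ≤ d) (hZ : 0 ≤ Z) :
    ∃ C : ℝ, 0 ≤ C ∧ ∀ u ∈ Set.Icc 0 d, ∃ a0 a1 a2 a3 : ℝ, ∀ z ∈ Set.Icc 0 Z,
      |trF (INE.pp p) (D - (u : ℂ) • (1 : Matrix ι ι ℂ) - (z : ℂ) • N) -
        (a0 + a1 * z + a2 * z ^ 2 + a3 * z ^ 3)| ≤ C * z ^ 4 := by
  obtain ⟨C, hC, h⟩ := ub2 hp hD hN.isHermitian d (Z + 1) (by linarith)
  refine ⟨C, hC, fun u hu => ?_⟩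
  obtain ⟨a0, a1, a2, a3, ha⟩ := h u hu
  exact ⟨a0, a1, a2, a3, fun z hz => ha z ⟨by linarith [hz.1], by linarith [hz.2]⟩⟩

/-- BLOCK TONE, both signs: Taylor inequalities of order two, three and four for `tau`, `p > 4` -/
theorem tau_tone6 {p : ℝ} (hp : 4 < p) {A D : Matrix ι ι ℂ}
    (h1 : (A - D).PosSemidef) (h2 : (A + D).PosSemidef) :
    ∃ c2 c3 C : ℝ, 0 ≤ c2 ∧ 0 ≤ c3 ∧ 0 ≤ C ∧
      (∀ z : ℝ, 0 ≤ z →
        tau p A D z ≤ tau p A D 0 - eta p A D 0 * z + c2 * z ^ 2 ∧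
        tau p A D 0 - eta p A D 0 * z + c2 * z ^ 2 - c3 * z ^ 3 ≤ tau p A D z ∧
        tau p A D z ≤ tau p A D 0 - eta p A D 0 * z + c2 * z ^ 2 - c3 * z ^ 3 + C * z ^ 4) ∧
      ∀ z : ℝ, |z| ≤ 1 →
        |tau p A D z - (tau p A D 0 - eta p A D 0 * z + c2 * z ^ 2 - c3 * z ^ 3)| ≤ C * z ^ 4 := by
  have hD : D.IsHermitian := by
    have h3 : ((A + D) - (A - D)).IsHermitian := h2.isHermitian.sub h1.isHermitian
    have h4 : (A + D) - (A - D) = (2 : ℂ) • D := by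
      rw [two_smul]
      abel
    rw [h4] at h3
    have h5 := herm_real_smul h3 (1 / 2)
    have h6 : (((1 / 2 : ℝ) : ℂ)) • (2 : ℂ) • D = D := by
      rw [smul_smul]
      push_cast
      norm_num
    rwa [h6] at h5
  obtain ⟨c2, c3, C, k2, k3, hC, h⟩ := tau_tone hp h1 h2
  obtain ⟨E, hE, hEu⟩ := ub2 hp hD h1.isHermitian 0 1 one_pos
  obtain ⟨F, hF, hFu⟩ := ub2 hp hD.neg h2.isHermitian 0 1 one_pos
  obtain ⟨a0, a1, a2, a3, ha⟩ := hEu 0 ⟨le_rfl, le_rfl⟩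
  obtain ⟨b0, b1, b2, b3, hb⟩ := hFu 0 ⟨le_rfl, le_rfl⟩
  have e0 : D - ((0 : ℝ) : ℂ) • (1 : Matrix ι ι ℂ) = D := by simp
  have f0 : -D - ((0 : ℝ) : ℂ) • (1 : Matrix ι ι ℂ) = -D := by simp
  rw [e0] at ha
  rw [f0] at hb
  have ht : ∀ z ∈ Set.Icc (-1 : ℝ) 1, |tau p A D z - ((a0 + b0) + (a1 + b1) * z +
      (a2 + b2) * z ^ 2 + (a3 + b3) * z ^ 3)| ≤ (E + F) * z ^ 4 := by
    intro z hz
    have ez : tau p A D z = trF (INE.pp p) (D - (z : ℂ) • (A - D)) +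
        trF (INE.pp p) (-D - (z : ℂ) • (A + D)) := rfl
    have x1 := abs_le.1 (ha z hz)
    have x2 := abs_le.1 (hb z hz)
    rw [ez, abs_le]
    constructor <;> linarith [x1.1, x1.2, x2.1, x2.2]
  have g0 : a0 + b0 = tau p A D 0 := by
    have := abs_le.1 (ht 0 ⟨by norm_num, by norm_num⟩)
    norm_num at this
    linarith [this.1, this.2]
  have hu := uniq3 (a := (a1 + b1) + eta p A D 0) (b := (a2 + b2) - c2) (c := (a3 + b3) + c3)
    (C := E + F + C) (by positivity) (by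
      intro x hx
      have y1 := abs_le.1 (ht x ⟨by linarith [hx.1], hx.2⟩)
      obtain ⟨-, y2, y3⟩ := h x hx.1.le
      rw [g0] at y1
      have hx4 : 0 ≤ x ^ 4 := by positivity
      have q1 : 0 ≤ C * x ^ 4 := mul_nonneg hC hx4
      have q2 : 0 ≤ E * x ^ 4 := mul_nonneg hE hx4
      have q3 : 0 ≤ F * x ^ 4 := mul_nonneg hF hx4
      rw [abs_le]
      constructor <;> linarith [y1.1, y1.2])
  obtain ⟨u1, u2, u3⟩ := hu
  refine ⟨c2, c3, C + (E + F), k2, k3, by positivity, ?_, ?_⟩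
  · intro z hz
    obtain ⟨y1, y2, y3⟩ := h z hz
    refine ⟨y1, y2, ?_⟩
    have hz4 : 0 ≤ (E + F) * z ^ 4 := by positivity
    linarith
  · intro z hz
    have y1 := abs_le.1 (ht z (abs_le.1 hz))
    have w1 : a1 + b1 = - eta p A D 0 := by linarith
    have w2 : a2 + b2 = c2 := by linarith
    have w3 : a3 + b3 = - c3 := by linarith
    rw [g0, w1, w2, w3] at y1
    have hz4 : 0 ≤ C * z ^ 4 := by positivity
    rw [abs_le]
    constructor <;> linarith [y1.1, y1.2]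

end Pool.Agent.Lib_helper30.TN
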