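import Mathlib

/-!
# The coefficients of `s ^ k` in `(Y + s N) ^ m` and their traces
-/

open Polynomial Matrix

namespace Pool.Agent.Lib_helper30.TN

variable {ι : Type} [Fintype ι] [DecidableEq ι]

/-- the coefficient of `s ^ k` in `(Y + s N) ^ m` -/
def W (Y N : Matrix ι ι ℂ) : ℕ → ℕ → Matrix ι ι ℂ
  | 0, 0 => 1
  | 0, _ + 1 => 0
  | m + 1, 0 => Y * W Y N m 0
  | m + 1, k + 1 => Y * W Y N m (k + 1) + N * W Y N m k

theorem W_zero (Y N : Matrix ι ι ℂ) (m : ℕ) : W Y N m 0 = Y ^ m := by
  induction m with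
  | zero => rfl
  | succ m ih =>
    change Y * W Y N m 0 = _
    rw [ih, pow_succ']

theorem hasDerivAt_W (X N : Matrix ι ι ℂ) (m k : ℕ) (i j : ι) (t : ℝ) :
    HasDerivAt (fun s : ℝ => W (X + (s : ℂ) • N) N m k i j)
      (((k : ℂ) + 1) * W (X + (t : ℂ) • N) N m (k + 1) i j) t := by
  induction m generalizing k i j with
  | zero =>
    cases k with
    | zero =>
      have : W (X + (t : ℂ) • N) N 0 (0 + 1) = 0 := rfl
      rw [this]
      have h := hasDerivAt_const t ((1 : Matrix ι ι ℂ) i j)
      have e : (0 : ℂ) = (((0 : ℕ) : ℂ) + 1) * (0 : Matrix ι ι ℂ) i j := by simp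
      exact (h.congr_deriv e :
        HasDerivAt (fun s : ℝ => W (X + (s : ℂ) • N) N 0 0 i j) _ t)
    | succ k =>
      have : W (X + (t : ℂ) • N) N 0 (k + 1 + 1) = 0 := rfl
      rw [this]
      have h := hasDerivAt_const t (0 : ℂ)
      have e : (0 : ℂ) = (((k + 1 : ℕ) : ℂ) + 1) * (0 : Matrix ι ι ℂ) i j := by simp
      exact (h.congr_deriv e :
        HasDerivAt (fun s : ℝ => W (X + (s : ℂ) • N) N 0 (k + 1) i j) _ t)
  | succ m ih =>
    have hY : ∀ a b : ι, HasDerivAt (fun s : ℝ => (X + (s : ℂ) • N) a b) (N a b) t := by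
      intro a b
      have h1 : HasDerivAt (fun s : ℝ => X a b + (s : ℂ) * N a b) (0 + 1 * N a b) t :=
        (hasDerivAt_const t (X a b)).add
          ((Complex.ofRealCLM.hasDerivAt (x := t)).mul_const (N a b))
      have e : (fun s : ℝ => (X + (s : ℂ) • N) a b) = fun s : ℝ => X a b + (s : ℂ) * N a b := by
        funext s
        simp
      rw [e]
      simpa using h1
    cases k with
    | zero =>
      have e1 : (fun s : ℝ => W (X + (s : ℂ) • N) N (m + 1) 0 i j) = fun s : ℝ =>
          ∑ l, (X + (s : ℂ) • N) i l * W (X + (s : ℂ) • N) N m 0 l j := by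
        funext s
        change ((X + (s : ℂ) • N) * W (X + (s : ℂ) • N) N m 0) i j = _
        rw [Matrix.mul_apply]
      have e2 : ((0 : ℕ) : ℂ) + 1 = 1 := by simp
      rw [e1]
      have h2 := HasDerivAt.fun_sum (u := Finset.univ) (fun l _ =>
        (hY i l).mul (ih 0 l j))
      refine h2.congr_deriv ?_
      change _ = _ * ((X + (t : ℂ) • N) * W (X + (t : ℂ) • N) N m 1 +
        N * W (X + (t : ℂ) • N) N m 0) i j
      rw [Matrix.add_apply, Matrix.mul_apply, Matrix.mul_apply, e2, one_mul,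
        ← Finset.sum_add_distrib]
      apply Finset.sum_congr rfl
      intro l _
      simp only [zero_add, one_mul]
      ring
    | succ k =>
      have e1 : (fun s : ℝ => W (X + (s : ℂ) • N) N (m + 1) (k + 1) i j) = fun s : ℝ =>
          (∑ l, (X + (s : ℂ) • N) i l * W (X + (s : ℂ) • N) N m (k + 1) l j) +
          ∑ l, N i l * W (X + (s : ℂ) • N) N m k l j := by
        funext s
        change ((X + (s : ℂ) • N) * W (X + (s : ℂ) • N) N m (k + 1) +
          N * W (X + (s : ℂ) • N) N m k) i j = _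
        rw [Matrix.add_apply, Matrix.mul_apply, Matrix.mul_apply]
      rw [e1]
      have h2 := (HasDerivAt.fun_sum (u := Finset.univ) (fun l _ =>
        (hY i l).mul (ih (k + 1) l j))).add
        (HasDerivAt.fun_sum (u := Finset.univ) (fun l _ => (ih k l j).const_mul (N i l)))
      refine h2.congr_deriv ?_
      change _ = _ * ((X + (t : ℂ) • N) * W (X + (t : ℂ) • N) N m (k + 1 + 1) +
        N * W (X + (t : ℂ) • N) N m (k + 1)) i j
      rw [Matrix.add_apply, Matrix.mul_apply, Matrix.mul_apply, ← Finset.sum_add_distrib,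
        ← Finset.sum_add_distrib, Finset.mul_sum]
      apply Finset.sum_congr rfl
      intro l _
      push_cast
      ring

theorem hasDerivAt_trace (X N : Matrix ι ι ℂ) (m k : ℕ) (t : ℝ) :
    HasDerivAt (fun s : ℝ => (W (X + (s : ℂ) • N) N m k).trace)
      (((k : ℂ) + 1) * (W (X + (t : ℂ) • N) N m (k + 1)).trace) t := by
  have h := HasDerivAt.fun_sum (u := Finset.univ) (fun i (_ : i ∈ (Finset.univ : Finset ι)) =>
    hasDerivAt_W X N m k i i t)
  have e : (((k : ℂ) + 1) * (W (X + (t : ℂ) • N) N m (k + 1)).trace) =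
      ∑ i, (((k : ℂ) + 1) * W (X + (t : ℂ) • N) N m (k + 1) i i) := by
    rw [Matrix.trace, Finset.mul_sum]
    rfl
  rw [e]
  exact h

theorem hasDerivAt_traceN (X N : Matrix ι ι ℂ) (m k : ℕ) (t : ℝ) :
    HasDerivAt (fun s : ℝ => (N * W (X + (s : ℂ) • N) N m k).trace)
      (((k : ℂ) + 1) * (N * W (X + (t : ℂ) • N) N m (k + 1)).trace) t := by
  have h := HasDerivAt.fun_sum (u := Finset.univ) (fun i (_ : i ∈ (Finset.univ : Finset ι)) =>
    HasDerivAt.fun_sum (u := Finset.univ) (fun j (_ : j ∈ (Finset.univ : Finset ι)) =>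
      (hasDerivAt_W X N m k j i t).const_mul (N i j)))
  have e : (((k : ℂ) + 1) * (N * W (X + (t : ℂ) • N) N m (k + 1)).trace) =
      ∑ i, ∑ j, N i j * (((k : ℂ) + 1) * W (X + (t : ℂ) • N) N m (k + 1) j i) := by
    rw [Matrix.trace, Finset.mul_sum]
    apply Finset.sum_congr rfl
    intro i _
    rw [Matrix.diag_apply, Matrix.mul_apply, Finset.mul_sum]
    apply Finset.sum_congr rfl
    intro j _
    ring
  have e2 : (fun s : ℝ => (N * W (X + (s : ℂ) • N) N m k).trace) = fun s : ℝ =>
      ∑ i, ∑ j, N i j * W (X + (s : ℂ) • N) N m k j i := by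
    funext s
    rfl
  rw [e, e2]
  exact h

theorem trace_W_one (Y N : Matrix ι ι ℂ) (m r : ℕ) :
    (Y ^ r * W Y N m 1).trace = m * (N * Y ^ (m + r - 1)).trace := by
  induction m generalizing r with
  | zero =>
    have : W Y N 0 1 = 0 := rfl
    rw [this]
    simp
  | succ m ih =>
    have e : W Y N (m + 1) 1 = Y * W Y N m 1 + N * W Y N m 0 := rfl
    rw [e, W_zero, mul_add, Matrix.trace_add, ← mul_assoc, ← pow_succ, ih (r + 1)]
    have e2 : (Y ^ r * (N * Y ^ m)).trace = (N * Y ^ (m + r)).trace := by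
      rw [Matrix.trace_mul_comm, mul_assoc, ← pow_add]
    rw [e2]
    have e3 : m + (r + 1) - 1 = m + r := by omega
    have e4 : m + 1 + r - 1 = m + r := by omega
    rw [e3, e4]
    push_cast
    ring

/-- the derivative of a trace: `(k+1) Tr W_(k+1)(m+1) = (m+1) Tr (N W_k(m))` -/
theorem trace_W_succ (X N : Matrix ι ι ℂ) (m k : ℕ) :
    ((k : ℂ) + 1) * (W X N (m + 1) (k + 1)).trace =
      ((m : ℂ) + 1) * (N * W X N m k).trace := by
  induction k generalizing X with
  | zero =>
    have h := trace_W_one X N (m + 1) 0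
    rw [pow_zero, one_mul] at h
    rw [h, W_zero]
    have : m + 1 + 0 - 1 = m := by omega
    rw [this]
    push_cast
    ring
  | succ k ih =>
    have h1 := (hasDerivAt_trace X N (m + 1) (k + 1) 0).const_mul ((k : ℂ) + 1)
    have h2 := (hasDerivAt_traceN X N m k 0).const_mul ((m : ℂ) + 1)
    have e : (fun s : ℝ => ((k : ℂ) + 1) * (W (X + (s : ℂ) • N) N (m + 1) (k + 1)).trace) =
        fun s : ℝ => ((m : ℂ) + 1) * (N * W (X + (s : ℂ) • N) N m k).trace := by
      funext s
      exact ih _
    rw [e] at h1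
    have h3 := h1.unique h2
    simp only [Complex.ofReal_zero, zero_smul, add_zero] at h3
    have hk : ((k : ℂ) + 1) ≠ 0 := by exact_mod_cast Nat.succ_ne_zero k
    have h4 : ((k : ℂ) + 1) * ((((k + 1 : ℕ) : ℂ) + 1) * (W X N (m + 1) (k + 1 + 1)).trace) =
        ((k : ℂ) + 1) * (((m : ℂ) + 1) * (N * W X N m (k + 1)).trace) := by
      rw [h3]
      ring
    exact mul_left_cancel₀ hk h4

theorem W_conj {U V : Matrix ι ι ℂ} (hVU : V * U = 1) (Y N : Matrix ι ι ℂ) (m k : ℕ) :
    U * W Y N m k * V = U * V * W (U * Y * V) (U * N * V) m k := by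
  induction m generalizing k with
  | zero =>
    cases k with
    | zero =>
      change U * 1 * V = U * V * 1
      simp
    | succ k =>
      change U * 0 * V = U * V * 0
      simp
  | succ m ih =>
    have key : ∀ (Z : Matrix ι ι ℂ) (k : ℕ), U * (Z * W Y N m k) * V =
        U * V * ((U * Z * V) * W (U * Y * V) (U * N * V) m k) := by
      intro Z k
      have h := ih k
      calc U * (Z * W Y N m k) * V = U * Z * (V * U) * W Y N m k * V := by
            rw [hVU]; noncomm_ring
        _ = U * Z * V * (U * W Y N m k * V) := by noncomm_ring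
        _ = U * Z * V * (U * V * W (U * Y * V) (U * N * V) m k) := by rw [h]
        _ = U * Z * (V * U) * V * W (U * Y * V) (U * N * V) m k := by noncomm_ring
        _ = U * Z * V * W (U * Y * V) (U * N * V) m k := by rw [hVU]; noncomm_ring
        _ = U * (V * U) * Z * V * W (U * Y * V) (U * N * V) m k := by rw [hVU]; noncomm_ring
        _ = _ := by noncomm_ring
    cases k with
    | zero =>
      change U * (Y * W Y N m 0) * V = U * V * ((U * Y * V) * W (U * Y * V) (U * N * V) m 0)
      exact key Y 0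
    | succ k =>
      change U * (Y * W Y N m (k + 1) + N * W Y N m k) * V =
        U * V * ((U * Y * V) * W (U * Y * V) (U * N * V) m (k + 1) +
          (U * N * V) * W (U * Y * V) (U * N * V) m k)
      rw [mul_add, add_mul, mul_add, key Y (k + 1), key N k]

end Pool.Agent.Lib_helper30.TN
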